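import Mathlib

/-!
Commuting pairs of continuous maps `f, g` of the line with `|x| = |f x| + |g x|`, where `f` flips
signs and `g` preserves them: the ratio `|f x| / |x|` is constant.
-/

open Set Function Filter Topology

namespace Pool.Agent.R739.FunEq

/-- Bernstein positivity. -/
lemma bernstein (w : ℕ → ℕ → ℝ) (h0 : ∀ i j, 0 ≤ w i j)
    (hr : ∀ i j, w i j = w (i + 1) j + w i (j + 1)) (N : ℕ) :
    ∀ (a b : ℕ) (θ : ℝ), 0 ≤ (N : ℝ) * (N - 1) * w (a + 2) b
      + (1 - 2 * θ) * N * w (a + 1) b + θ ^ 2 * w a b := by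
  induction N with
  | zero =>
    intro a b θ
    have := h0 a b
    simp only [Nat.cast_zero, zero_mul, mul_zero, zero_add]
    positivity
  | succ N ih =>
    intro a b θ
    have p := ih a (b + 1) θ
    have q := ih (a + 1) b (θ - 1)
    have e1 : w a (b + 1) = w a b - w (a + 1) b := by linarith [hr a b]
    have e2 : w (a + 1) (b + 1) = w (a + 1) b - w (a + 2) b := by linarith [hr (a + 1) b]
    have e3 : w (a + 2) (b + 1) = w (a + 2) b - w (a + 3) b := by linarith [hr (a + 2) b]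
    have e4 : w (a + 1 + 2) b = w (a + 3) b := rfl
    have e5 : w (a + 1 + 1) b = w (a + 2) b := rfl
    rw [e1, e2, e3] at p
    rw [e4, e5] at q
    have key : (((N + 1 : ℕ) : ℝ)) * (((N + 1 : ℕ) : ℝ) - 1) * w (a + 2) b
        + (1 - 2 * θ) * ((N + 1 : ℕ) : ℝ) * w (a + 1) b + θ ^ 2 * w a b
        = ((N : ℝ) * (N - 1) * (w (a + 2) b - w (a + 3) b)
          + (1 - 2 * θ) * N * (w (a + 1) b - w (a + 2) b) + θ ^ 2 * (w a b - w (a + 1) b))
        + ((N : ℝ) * (N - 1) * w (a + 3) b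
          + (1 - 2 * (θ - 1)) * N * w (a + 2) b + (θ - 1) ^ 2 * w (a + 1) b) := by
      push_cast
      ring
    rw [key]
    exact add_nonneg p q

/-- Iterates of a map that strictly decreases absolute values tend to zero. -/
lemma exists_iterate_small {φ : ℝ → ℝ} (hφ : Continuous φ) (hlt : ∀ x, x ≠ 0 → |φ x| < |x|)
    (h0 : φ 0 = 0) (x : ℝ) {ε : ℝ} (hε : 0 < ε) : ∃ n0, ∀ n ≥ n0, |φ^[n] x| < ε := by
  have hle : ∀ z, |φ z| ≤ |z| := by
    intro z
    by_cases hz : z = 0
    · rw [hz, h0]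
    · exact (hlt z hz).le
  have hanti : ∀ m n : ℕ, |φ^[m + n] x| ≤ |φ^[m] x| := by
    intro m n
    induction n with
    | zero => simp
    | succ n ih =>
      rw [← add_assoc, Function.iterate_succ_apply']
      exact (hle _).trans ih
  suffices h : ∃ n0, |φ^[n0] x| < ε by
    obtain ⟨n0, hn0⟩ := h
    refine ⟨n0, fun n hn => ?_⟩
    obtain ⟨k, rfl⟩ := Nat.exists_eq_add_of_le hn
    exact (hanti n0 k).trans_lt hn0
  by_contra hcon
  push Not at hcon
  have hx : ε ≤ |x| := by simpa using hcon 0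
  have hcomp : IsCompact (Icc (-|x|) |x| ∩ {z : ℝ | ε ≤ |z|}) :=
    isCompact_Icc.inter_right (isClosed_le continuous_const continuous_abs)
  have hne : (Icc (-|x|) |x| ∩ {z : ℝ | ε ≤ |z|}).Nonempty :=
    ⟨x, ⟨abs_le.mp le_rfl, hx⟩⟩
  obtain ⟨m, hm, hmin⟩ := hcomp.exists_isMinOn hne
    ((continuous_abs.sub hφ.abs).continuousOn (s := Icc (-|x|) |x| ∩ {z : ℝ | ε ≤ |z|}))
  have hm0 : m ≠ 0 := by
    rintro rfl
    have : ε ≤ |(0 : ℝ)| := hm.2
    simp at this
    linarith
  have hδ : 0 < |m| - |φ m| := by linarith [hlt m hm0]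
  have hstep : ∀ n : ℕ, |φ^[n] x| ≤ |x| - n * (|m| - |φ m|) := by
    intro n
    induction n with
    | zero => simp
    | succ n ih =>
      have hmem : φ^[n] x ∈ Icc (-|x|) |x| ∩ {z : ℝ | ε ≤ |z|} := by
        refine ⟨abs_le.mp ?_, hcon n⟩
        simpa using hanti 0 n
      have : |m| - |φ m| ≤ |φ^[n] x| - |φ (φ^[n] x)| := hmin hmem
      rw [Function.iterate_succ_apply']
      push_cast
      linarith
  obtain ⟨n, hn⟩ := exists_nat_gt (|x| / (|m| - |φ m|))
  rw [div_lt_iff₀ hδ] at hn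
  have h1 := hstep n
  have h2 := hcon n
  linarith

/-- A commuting pair of continuous maps with `|x| = |f x| + |g x|`. -/
structure CPair (f g : ℝ → ℝ) : Prop where
  contF : Continuous f
  contG : Continuous g
  comm : ∀ x, f (g x) = g (f x)
  habs : ∀ x, |x| = |f x| + |g x|
  sf : ∀ x, x ≠ 0 → x * f x < 0
  sg : ∀ x, x ≠ 0 → 0 < x * g x

namespace CPair

variable {f g : ℝ → ℝ} (h : CPair f g)
include h

lemma f_zero : f 0 = 0 := by
  have := h.habs 0
  rw [abs_zero] at this
  have h1 : |f 0| = 0 := by linarith [abs_nonneg (f 0), abs_nonneg (g 0)]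
  exact abs_eq_zero.mp h1

lemma g_zero : g 0 = 0 := by
  have := h.habs 0
  rw [abs_zero] at this
  have h1 : |g 0| = 0 := by linarith [abs_nonneg (f 0), abs_nonneg (g 0)]
  exact abs_eq_zero.mp h1

lemma f_ne {x : ℝ} (hx : x ≠ 0) : f x ≠ 0 := by
  intro h0
  have := h.sf x hx
  rw [h0] at this
  simp at this

lemma g_ne {x : ℝ} (hx : x ≠ 0) : g x ≠ 0 := by
  intro h0
  have := h.sg x hx
  rw [h0] at this
  simp at this

lemma gf_iter (i : ℕ) (x : ℝ) : f^[i] (g x) = g (f^[i] x) := by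
  have hc : Function.Commute f g := fun x => h.comm x
  exact (hc.iterate_left i) x

lemma quad (x ϑ : ℝ) : 0 ≤ |f (f x)| - 2 * ϑ * |f x| + ϑ ^ 2 * |x| := by
  set A := |f x| with hA
  set B := |f (f x)| with hB
  set D := B - 2 * ϑ * A + ϑ ^ 2 * |x| with hD
  by_contra hneg
  push Not at hneg
  have key : ∀ N : ℕ, 0 ≤ ((N : ℝ) + 1) * D + (A - B) := by
    intro N
    have hp := bernstein (fun i j => |f^[i] (g^[j] x)|) (fun i j => abs_nonneg _)
      (fun i j => by
        rw [Function.iterate_succ_apply', Function.iterate_succ_apply', h.gf_iter]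
        exact h.habs _) (N + 1) 0 0 (((N : ℝ) + 1) * ϑ)
    simp only [zero_add, Function.iterate_succ_apply', Function.iterate_zero, id_eq] at hp
    have hp' : 0 ≤ ((N : ℝ) + 1) * (((N : ℝ) + 1) * D + (A - B)) := by
      have : ((N : ℝ) + 1) * (((N : ℝ) + 1) * D + (A - B)) =
          (((N + 1 : ℕ) : ℝ)) * (((N + 1 : ℕ) : ℝ) - 1) * B
          + (1 - 2 * (((N : ℝ) + 1) * ϑ)) * ((N + 1 : ℕ) : ℝ) * A
          + ((↑N + 1) * ϑ) ^ 2 * |x| := by
        rw [hD]; push_cast; ring
      rw [this]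
      exact hp
    have hN : (0 : ℝ) < (N : ℝ) + 1 := by positivity
    exact nonneg_of_mul_nonneg_right hp' hN
  obtain ⟨N, hN⟩ := exists_nat_gt ((A - B) / (-D))
  have hD' : 0 < -D := by linarith
  have h1 := key N
  rw [div_lt_iff₀ hD'] at hN
  nlinarith

lemma logconvex (x : ℝ) : |f x| ^ 2 ≤ |x| * |f (f x)| := by
  by_cases hx : x = 0
  · rw [hx, h.f_zero]; simp
  have hX : 0 < |x| := abs_pos.mpr hx
  have hq := h.quad x (|f x| / |x|)
  have : |x| * |f (f x)| - |f x| ^ 2 =
      |x| * (|f (f x)| - 2 * (|f x| / |x|) * |f x| + (|f x| / |x|) ^ 2 * |x|) := by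
    field_simp
    ring
  have h2 := mul_nonneg hX.le hq
  rw [← this] at h2
  linarith

lemma ratio_f {x : ℝ} (hx : x ≠ 0) : |f x| / |x| ≤ |f (f x)| / |f x| := by
  rw [div_le_div_iff₀ (abs_pos.mpr hx) (abs_pos.mpr (h.f_ne hx))]
  nlinarith [h.logconvex x]

lemma ratio_g {x : ℝ} (hx : x ≠ 0) : |f (g x)| / |g x| ≤ |f x| / |x| := by
  rw [div_le_div_iff₀ (abs_pos.mpr (h.g_ne hx)) (abs_pos.mpr hx)]
  have h1 : |f (g x)| = |f x| - |f (f x)| := by
    rw [h.comm]; linarith [h.habs (f x)]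
  have h2 : |g x| = |x| - |f x| := by linarith [h.habs x]
  rw [h1, h2]
  nlinarith [h.logconvex x]

lemma f_iter_ne {x : ℝ} (hx : x ≠ 0) (k : ℕ) : f^[k] x ≠ 0 := by
  induction k with
  | zero => simpa using hx
  | succ k ih => rw [Function.iterate_succ_apply']; exact h.f_ne ih

lemma g_iter_ne {x : ℝ} (hx : x ≠ 0) (k : ℕ) : g^[k] x ≠ 0 := by
  induction k with
  | zero => simpa using hx
  | succ k ih => rw [Function.iterate_succ_apply']; exact h.g_ne ih

lemma ratio_f_iter {x : ℝ} (hx : x ≠ 0) (k : ℕ) :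
    |f x| / |x| ≤ |f (f^[k] x)| / |f^[k] x| := by
  induction k with
  | zero => simp
  | succ k ih =>
    rw [Function.iterate_succ_apply']
    exact ih.trans (h.ratio_f (h.f_iter_ne hx k))

lemma ratio_g_iter {x : ℝ} (hx : x ≠ 0) (k : ℕ) :
    |f (g^[k] x)| / |g^[k] x| ≤ |f x| / |x| := by
  induction k with
  | zero => simp
  | succ k ih =>
    rw [Function.iterate_succ_apply']
    exact (h.ratio_g (h.g_iter_ne hx k)).trans ih

lemma g_iter_pos {x : ℝ} (hx : x ≠ 0) (k : ℕ) : 0 < x * g^[k] x := by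
  induction k with
  | zero => simpa using mul_self_pos.mpr hx
  | succ k ih =>
    rw [Function.iterate_succ_apply']
    have h1 := mul_pos ih (h.sg _ (h.g_iter_ne hx k))
    have e : (x * g^[k] x) * (g^[k] x * g (g^[k] x)) = (g^[k] x) ^ 2 * (x * g (g^[k] x)) := by
      ring
    rw [e] at h1
    exact (pos_iff_pos_of_mul_pos h1).mp (by
      have := h.g_iter_ne hx k
      positivity)

/-- The ratio is constant. -/
theorem ratio_le {x y : ℝ} (hx : x ≠ 0) (hy : y ≠ 0) : |f x| / |x| ≤ |f y| / |y| := by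
  by_contra hlt
  push Not at hlt
  set σ := |f x| / |x| with hσ
  set ρ := |f y| / |y| with hρ
  have hxa : 0 < |x| := abs_pos.mpr hx
  have hya : 0 < |y| := abs_pos.mpr hy
  have hρ0 : 0 ≤ ρ := by positivity
  have hσ1 : σ < 1 := by
    rw [hσ, div_lt_one hxa]
    linarith [h.habs x, abs_pos.mpr (h.g_ne hx)]
  have hp : 0 < 1 - ρ := by linarith
  have hp' : 0 < 1 - σ := by linarith
  have hq : (1 - σ) / (1 - ρ) < 1 := by
    rw [div_lt_one hp]; linarith
  obtain ⟨K0, hK0⟩ := exists_pow_lt_of_lt_one hp hq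
  -- a small point on the ray of `y` with large ratio
  have hflt : ∀ z, z ≠ 0 → |f z| < |z| := fun z hz => by
    linarith [h.habs z, abs_pos.mpr (h.g_ne hz)]
  have hglt : ∀ z, z ≠ 0 → |g z| < |z| := fun z hz => by
    linarith [h.habs z, abs_pos.mpr (h.f_ne hz)]
  have hεpos : 0 < |g^[K0 + 1] y| := abs_pos.mpr (h.g_iter_ne hy _)
  obtain ⟨n0, hn0⟩ := exists_iterate_small h.contF hflt h.f_zero x hεpos
  have hsign : ∃ n ≥ n0, 0 < f^[n] x * y := by
    by_cases hs : 0 < f^[n0] x * y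
    · exact ⟨n0, le_rfl, hs⟩
    · refine ⟨n0 + 1, by omega, ?_⟩
      have hne := h.f_iter_ne hx n0
      have h1 : f^[n0] x * y < 0 := lt_of_le_of_ne (not_lt.mp hs) (mul_ne_zero hne hy)
      have h2 := h.sf _ hne
      rw [Function.iterate_succ_apply']
      have h3 : 0 < (f^[n0] x * y) * (f^[n0] x * f (f^[n0] x)) := mul_pos_of_neg_of_neg h1 h2
      have e : (f^[n0] x * y) * (f^[n0] x * f (f^[n0] x)) =
          (f^[n0] x) ^ 2 * (f (f^[n0] x) * y) := by ring
      rw [e] at h3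
      exact (pos_iff_pos_of_mul_pos h3).mp (by positivity)
  obtain ⟨n, hn, hzy⟩ := hsign
  set z := f^[n] x with hz
  have hz0 : z ≠ 0 := h.f_iter_ne hx n
  have hzsmall : |z| < |g^[K0 + 1] y| := hn0 n hn
  have hzr : σ ≤ |f z| / |z| := h.ratio_f_iter hx n
  have hza : 0 < |z| := abs_pos.mpr hz0
  -- find the level
  obtain ⟨j0, hj0⟩ := exists_iterate_small h.contG hglt h.g_zero y hza
  have hex : ∃ j : ℕ, |g^[j] y| < |z| := ⟨j0, hj0 j0 le_rfl⟩
  have hganti : ∀ m n : ℕ, |g^[m + n] y| ≤ |g^[m] y| := by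
    intro m n
    induction n with
    | zero => simp
    | succ n ih =>
      rw [← add_assoc, Function.iterate_succ_apply']
      exact (hglt _ (h.g_iter_ne hy _)).le.trans ih
  classical
  have hjspec := Nat.find_spec hex
  have hmin := fun j => Nat.find_min (H := hex) (m := j)
  set j1 := Nat.find hex with hj1
  have hlt1 : K0 + 1 < j1 := by
    by_contra hle
    push Not at hle
    obtain ⟨d, hd⟩ := Nat.exists_eq_add_of_le hle
    have := hganti j1 d
    rw [← hd] at this
    linarith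
  obtain ⟨k, hk⟩ : ∃ k, j1 = k + 1 := ⟨j1 - 1, by omega⟩
  have hkle := hmin k (by omega)
  push Not at hkle
  have hKk : K0 ≤ k := by omega
  rw [hk] at hjspec
  -- intermediate value
  have hcontk : Continuous (g^[k]) := h.contG.iterate _
  have hs1 := h.g_iter_pos hy k
  have hs2 := h.g_iter_pos hy (k + 1)
  have hivt : z ∈ g^[k] '' uIcc (g y) y := by
    apply intermediate_value_uIcc hcontk.continuousOn
    rw [← Function.iterate_succ_apply]
    rcases lt_or_gt_of_ne hy with hyn | hyp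
    · have a0 : z < 0 := by nlinarith
      have a1 : g^[k] y < 0 := by nlinarith
      have a2 : g^[k + 1] y < 0 := by nlinarith
      rw [abs_of_neg a1, abs_of_neg a0] at hkle
      rw [abs_of_neg a2, abs_of_neg a0] at hjspec
      exact mem_uIcc.mpr (Or.inr ⟨by linarith, by linarith⟩)
    · have a0 : 0 < z := by nlinarith
      have a1 : 0 < g^[k] y := by nlinarith
      have a2 : 0 < g^[k + 1] y := by nlinarith
      rw [abs_of_pos a1, abs_of_pos a0] at hkle
      rw [abs_of_pos a2, abs_of_pos a0] at hjspec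
      exact mem_uIcc.mpr (Or.inl ⟨by linarith, by linarith⟩)
  obtain ⟨w, hw, hwz⟩ := hivt
  have hw0 : w ≠ 0 := by
    rintro rfl
    have : g^[k] 0 = 0 := Function.iterate_fixed h.g_zero _
    rw [this] at hwz
    exact hz0 hwz.symm
  have hwabs : |w| ≤ |y| := by
    have h2 : |w| ≤ max |g y| |y| := by
      rcases mem_uIcc.mp hw with ⟨h1, h2⟩ | ⟨h1, h2⟩
      · exact abs_le_max_abs_abs h1 h2
      · rw [max_comm]; exact abs_le_max_abs_abs h1 h2
    exact h2.trans (max_le (hglt y hy).le le_rfl)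
  have hup : ∀ i ≤ k, |g^[i] w| ≤ (1 - σ) ^ i * |w| := by
    intro i
    induction i with
    | zero => intro _; simp
    | succ i ih =>
      intro hi
      have ih' := ih (by omega)
      have hne := h.g_iter_ne hw0 i
      have hpos : 0 < |g^[i] w| := abs_pos.mpr hne
      have hr : σ ≤ |f (g^[i] w)| / |g^[i] w| := by
        have e : g^[k] w = g^[k - i] (g^[i] w) := by
          rw [← Function.iterate_add_apply]
          congr 1
          omega
        have := h.ratio_g_iter hne (k - i)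
        rw [← e, hwz] at this
        exact hzr.trans this
      rw [le_div_iff₀ hpos] at hr
      rw [Function.iterate_succ_apply', pow_succ]
      have := h.habs (g^[i] w)
      nlinarith
  have hlow : ∀ i : ℕ, (1 - ρ) ^ i * |y| ≤ |g^[i] y| := by
    intro i
    induction i with
    | zero => simp
    | succ i ih =>
      have hne := h.g_iter_ne hy i
      have hpos : 0 < |g^[i] y| := abs_pos.mpr hne
      have hr := h.ratio_g_iter hy i
      rw [← hρ, div_le_iff₀ hpos] at hr
      rw [Function.iterate_succ_apply', pow_succ]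
      have := h.habs (g^[i] y)
      nlinarith
  have h1 := hup k le_rfl
  rw [hwz] at h1
  have h2 := hlow (k + 1)
  have h3 : (1 - ρ) ^ (k + 1) * |y| < (1 - σ) ^ k * |y| := by
    calc (1 - ρ) ^ (k + 1) * |y| ≤ |g^[k + 1] y| := h2
      _ < |z| := hjspec
      _ ≤ (1 - σ) ^ k * |w| := h1
      _ ≤ (1 - σ) ^ k * |y| := by gcongr
  have h4 : (1 - ρ) ^ (k + 1) < (1 - σ) ^ k := lt_of_mul_lt_mul_right h3 hya.le
  have h5 : 1 - ρ < ((1 - σ) / (1 - ρ)) ^ k := by
    rw [div_pow, lt_div_iff₀ (by positivity)]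
    calc (1 - ρ) * (1 - ρ) ^ k = (1 - ρ) ^ (k + 1) := by ring
      _ < (1 - σ) ^ k := h4
  have h6 : ((1 - σ) / (1 - ρ)) ^ k ≤ ((1 - σ) / (1 - ρ)) ^ K0 :=
    pow_le_pow_of_le_one (by positivity) hq.le hKk
  linarith

end CPair

end Pool.Agent.R739.FunEq
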