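import Mathlib

/-!
Commuting pairs of continuous maps `F, G` of the line with `|G x| = |x| + |F x|`:
the ratio `|F x| / |x|` is constant on each open half-line.
-/

open Set Function Filter Topology

namespace Pool.Agent.R739.FunEq

/-- Pascal-triangle positivity. -/
lemma pascal (u : ℕ → ℕ → ℝ) (h0 : ∀ i j, 0 ≤ u i j)
    (hr : ∀ i j, u i (j + 1) = u i j + u (i + 1) j) (N : ℕ) :
    ∀ (i : ℕ) (θ : ℝ), 0 ≤ (N + 2) * (N + 1) * u (i + 2) N
      + (1 - 2 * θ) * (N + 2) * u (i + 1) (N + 1) + θ ^ 2 * u i (N + 2) := by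
  induction N with
  | zero =>
    intro i θ
    have e1 := hr (i + 1) 0
    have e2 := hr i 1
    have e3 := hr i 0
    have e4 := hr (i + 1) 0
    simp only [zero_add, Nat.reduceAdd] at e1 e2 e3 e4 ⊢
    have e5 : u (i + 1 + 1) 0 = u (i + 2) 0 := rfl
    have : (((0 : ℕ) : ℝ) + 2) * (((0 : ℕ) : ℝ) + 1) * u (i + 2) 0
        + (1 - 2 * θ) * (((0 : ℕ) : ℝ) + 2) * u (i + 1) 1 + θ ^ 2 * u i 2
        = (θ - 2) ^ 2 * u (i + 2) 0 + 2 * (θ - 1) ^ 2 * u (i + 1) 0 + θ ^ 2 * u i 0 := by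
      rw [e2, e3, e1, e5]
      push_cast
      ring
    rw [this]
    have h1 := h0 (i + 2) 0
    have h2 := h0 (i + 1) 0
    have h3 := h0 i 0
    positivity
  | succ N ih =>
    intro i θ
    have a := ih i θ
    have b := ih (i + 1) (θ - 1)
    have e1 := hr (i + 2) N
    have e2 := hr (i + 1) (N + 1)
    have e3 := hr i (N + 2)
    have key : (((N + 1 : ℕ) : ℝ) + 2) * (((N + 1 : ℕ) : ℝ) + 1) * u (i + 2) (N + 1)
        + (1 - 2 * θ) * (((N + 1 : ℕ) : ℝ) + 2) * u (i + 1) (N + 1 + 1)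
        + θ ^ 2 * u i (N + 1 + 2)
        = ((N + 2) * (N + 1) * u (i + 2) N
          + (1 - 2 * θ) * (N + 2) * u (i + 1) (N + 1) + θ ^ 2 * u i (N + 2))
        + ((N + 2) * (N + 1) * u (i + 1 + 2) N
          + (1 - 2 * (θ - 1)) * (N + 2) * u (i + 1 + 1) (N + 1)
          + (θ - 1) ^ 2 * u (i + 1) (N + 2)) := by
      have e1' : u (i + 1 + 2) N = u (i + 2) (N + 1) - u (i + 2) N := by
        rw [e1]; ring_nf
      have e2' : u (i + 1) (N + 1) = u (i + 1) (N + 2) - u (i + 2) (N + 1) := by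
        have : u (i + 1) (N + 2) = u (i + 1) (N + 1) + u (i + 2) (N + 1) := e2
        rw [this]; ring
      have e3' : u i (N + 1 + 2) = u i (N + 2) + u (i + 1) (N + 2) := e3
      have e4' : u (i + 1) (N + 1 + 1) = u (i + 1) (N + 2) := rfl
      have e5' : u (i + 1 + 1) (N + 1) = u (i + 2) (N + 1) := rfl
      rw [e1', e3', e4', e5', e2']
      push_cast
      ring
    rw [key]
    exact add_nonneg a b

/-- A commuting pair of continuous maps with `|G x| = |x| + |F x|`. -/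
structure Pair (F G : ℝ → ℝ) : Prop where
  contF : Continuous F
  contG : Continuous G
  comm : ∀ x, F (G x) = G (F x)
  habs : ∀ x, |G x| = |x| + |F x|
  surj : Function.Surjective G
  sgn : ∀ x, 0 ≤ F x * G x
  sgn2 : ∀ x, 0 ≤ x * G (G x)

namespace Pair

variable {F G : ℝ → ℝ} (h : Pair F G)
include h

lemma G_zero : G 0 = 0 := by
  obtain ⟨x, hx⟩ := h.surj 0
  have := h.habs x
  rw [hx] at this
  simp only [abs_zero] at this
  have h1 : |x| = 0 := by linarith [abs_nonneg x, abs_nonneg (F x)]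
  have h2 : x = 0 := abs_eq_zero.mp h1
  rw [h2] at hx
  exact hx

lemma F_zero : F 0 = 0 := by
  have := h.habs 0
  rw [h.G_zero] at this
  simpa using this.symm

lemma FG_iter (i : ℕ) (x : ℝ) : F^[i] (G x) = G (F^[i] x) := by
  have hc : Function.Commute F G := fun x => h.comm x
  exact (hc.iterate_left i) x

lemma F_Giter (j : ℕ) (x : ℝ) : F (G^[j] x) = G^[j] (F x) := by
  have hc : Function.Commute F G := fun x => h.comm x
  exact (hc.iterate_right j) x

lemma abs_F_G (x : ℝ) : |F (G x)| = |F x| + |F (F x)| := by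
  rw [h.comm, h.habs]

lemma quad (x ϑ : ℝ) :
    0 ≤ |F (F x)| - 2 * ϑ * (|F x| + |F (F x)|) + ϑ ^ 2 * (|x| + 2 * |F x| + |F (F x)|) := by
  set A := |F x| with hA
  set B := |F (F x)| with hB
  set D := B - 2 * ϑ * (A + B) + ϑ ^ 2 * (|x| + 2 * A + B) with hD
  by_contra hneg
  push Not at hneg
  have key : ∀ N : ℕ, 0 ≤ ((N : ℝ) + 2) * D + A := by
    intro N
    obtain ⟨z, hz⟩ := h.surj.iterate N x
    have hp := pascal (fun i j => |F^[i] (G^[j] z)|) (fun i j => abs_nonneg _)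
      (fun i j => by
        rw [Function.iterate_succ_apply', h.FG_iter, h.habs, Function.iterate_succ_apply']) N 0
        (((N : ℝ) + 2) * ϑ)
    simp only [zero_add, Function.iterate_succ_apply', Function.iterate_zero, id_eq, hz] at hp
    have e1 : |F (G x)| = A + B := h.abs_F_G x
    have e2 : |G (G x)| = |x| + 2 * A + B := by
      rw [h.habs, h.habs, e1]; ring
    rw [e1, e2] at hp
    have hp' : 0 ≤ ((N : ℝ) + 2) * (((N : ℝ) + 2) * D + A) := by
      have : ((N : ℝ) + 2) * (((N : ℝ) + 2) * D + A) = (↑N + 2) * (↑N + 1) * B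
          + (1 - 2 * ((↑N + 2) * ϑ)) * (↑N + 2) * (A + B)
          + ((↑N + 2) * ϑ) ^ 2 * (|x| + 2 * A + B) := by
        rw [hD]; ring
      rw [this]
      exact hp
    have hN : (0 : ℝ) < (N : ℝ) + 2 := by positivity
    exact nonneg_of_mul_nonneg_right hp' hN
  obtain ⟨N, hN⟩ := exists_nat_gt (A / (-D))
  have hD' : 0 < -D := by linarith
  have h1 := key N
  rw [div_lt_iff₀ hD'] at hN
  nlinarith

lemma logconvex (x : ℝ) : |F x| ^ 2 ≤ |x| * |F (F x)| := by
  have hA := abs_nonneg (F x)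
  have hB := abs_nonneg (F (F x))
  have hX := abs_nonneg x
  rcases eq_or_lt_of_le (by positivity : 0 ≤ |x| + 2 * |F x| + |F (F x)|) with h0 | h0
  · have : |F x| = 0 := by linarith
    rw [this]
    simp only [ne_eq, OfNat.ofNat_ne_zero, not_false_eq_true, zero_pow]
    positivity
  · have hq := h.quad x ((|F x| + |F (F x)|) / (|x| + 2 * |F x| + |F (F x)|))
    set M := |x| + 2 * |F x| + |F (F x)| with hM
    have hq' : 0 ≤ |F (F x)| * M - (|F x| + |F (F x)|) ^ 2 := by
      have e : |F (F x)| * M - (|F x| + |F (F x)|) ^ 2 =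
          M * (|F (F x)| - 2 * ((|F x| + |F (F x)|) / M) * (|F x| + |F (F x)|)
            + ((|F x| + |F (F x)|) / M) ^ 2 * M) := by
        field_simp
        ring
      rw [e]
      exact mul_nonneg h0.le hq
    rw [hM] at hq'
    nlinarith

/-- The ratio `|F x| / |x|` does not decrease along `G`. -/
lemma ratio_le_G {x : ℝ} (hx : x ≠ 0) : |F x| / |x| ≤ |F (G x)| / |G x| := by
  have hX : 0 < |x| := abs_pos.mpr hx
  have hG : 0 < |G x| := by rw [h.habs]; linarith [abs_nonneg (F x)]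
  rw [div_le_div_iff₀ hX hG, h.abs_F_G, h.habs]
  nlinarith [h.logconvex x]

lemma G_ne {x : ℝ} (hx : x ≠ 0) : G x ≠ 0 := by
  intro h0
  have := h.habs x
  rw [h0, abs_zero] at this
  have hX : 0 < |x| := abs_pos.mpr hx
  linarith [abs_nonneg (F x)]

lemma Giter_ne {x : ℝ} (hx : x ≠ 0) (k : ℕ) : G^[k] x ≠ 0 := by
  induction k with
  | zero => simpa using hx
  | succ k ih =>
    rw [Function.iterate_succ_apply']
    exact h.G_ne ih

lemma ratio_G_le_F {x : ℝ} (hx : x ≠ 0) (hF : F x ≠ 0) :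
    |F (G x)| / |G x| ≤ |F (F x)| / |F x| := by
  have hX : 0 < |x| := abs_pos.mpr hx
  have hFx : 0 < |F x| := abs_pos.mpr hF
  have hG : 0 < |G x| := by rw [h.habs]; linarith [abs_nonneg (F x)]
  rw [div_le_div_iff₀ hG hFx, h.abs_F_G, h.habs]
  nlinarith [h.logconvex x]

lemma ratio_le_Giter {x : ℝ} (hx : x ≠ 0) (k : ℕ) :
    |F x| / |x| ≤ |F (G^[k] x)| / |G^[k] x| := by
  induction k with
  | zero => simp
  | succ k ih =>
    rw [Function.iterate_succ_apply']
    exact ih.trans (h.ratio_le_G (h.Giter_ne hx k))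

lemma Giter_lower (x : ℝ) (k : ℕ) : |x| + k * |F x| ≤ |G^[k] x| := by
  have hmono : ∀ k : ℕ, ∀ y : ℝ, |y| ≤ |G^[k] y| := by
    intro k
    induction k with
    | zero => intro y; simp
    | succ k ih =>
      intro y
      rw [Function.iterate_succ_apply', h.habs]
      linarith [ih y, abs_nonneg (F (G^[k] y))]
  induction k with
  | zero => simp
  | succ k ih =>
    rw [Function.iterate_succ_apply', h.habs, h.F_Giter]
    push_cast
    linarith [hmono k (F x)]

/-- Boundedness of the ratio near zero. -/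
lemma bound_near : ∃ C : ℝ, 0 ≤ C ∧ ∀ x, x ≠ 0 → |x| ≤ 1 → |F x| / |x| ≤ C := by
  have hcomp : IsCompact (Icc (-1 : ℝ) 1) := isCompact_Icc
  obtain ⟨m, -, hm⟩ := hcomp.exists_isMaxOn (⟨0, by simp⟩ : (Icc (-1 : ℝ) 1).Nonempty)
    (h.contG.abs.continuousOn)
  set B := max |G m| 1 with hB
  have hB1 : 1 ≤ B := le_max_right _ _
  have hcomp2 : IsCompact (Icc (-B) B ∩ {x : ℝ | 1 ≤ |x|}) :=
    isCompact_Icc.inter_right (isClosed_le continuous_const continuous_abs)
  have hne2 : (Icc (-B) B ∩ {x : ℝ | 1 ≤ |x|}).Nonempty := by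
    refine ⟨1, ⟨by constructor <;> linarith, by simp⟩⟩
  have hcont : ContinuousOn (fun x => |F x| / |x|) (Icc (-B) B ∩ {x : ℝ | 1 ≤ |x|}) := by
    refine ContinuousOn.div h.contF.abs.continuousOn continuous_abs.continuousOn ?_
    rintro x ⟨-, hx⟩
    have : (1 : ℝ) ≤ |x| := hx
    linarith
  obtain ⟨M, -, hM⟩ := hcomp2.exists_isMaxOn hne2 hcont
  refine ⟨|F M| / |M|, by positivity, fun x hx hx1 => ?_⟩
  by_cases hF : F x = 0
  · rw [hF]; simp only [abs_zero, zero_div]; positivity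
  have hFx : 0 < |F x| := abs_pos.mpr hF
  have hex : ∃ k : ℕ, 1 < |G^[k] x| := by
    obtain ⟨k, hk⟩ := exists_nat_gt (1 / |F x|)
    refine ⟨k, ?_⟩
    rw [div_lt_iff₀ hFx] at hk
    linarith [h.Giter_lower x k, abs_nonneg x]
  classical
  have hk := Nat.find_spec hex
  have hmin := fun j => Nat.find_min (H := hex) (m := j)
  set k := Nat.find hex with hkdef
  have hk0 : k ≠ 0 := by
    intro h0
    rw [h0] at hk
    simp at hk
    linarith
  obtain ⟨j, hj⟩ := Nat.exists_eq_succ_of_ne_zero hk0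
  have hjlt := hmin j (by omega)
  push Not at hjlt
  have hup : |G^[k] x| ≤ B := by
    rw [hj, Function.iterate_succ_apply']
    exact (hm (abs_le.mp hjlt)).trans (le_max_left _ _)
  have hmem : G^[k] x ∈ Icc (-B) B ∩ {x : ℝ | 1 ≤ |x|} := ⟨abs_le.mp hup, hk.le⟩
  exact (h.ratio_le_Giter hx k).trans (hM hmem)

/-- Arbitrarily small points on the same ray with a ratio at least as large. -/
lemma small {x : ℝ} (hx : x ≠ 0) (hF : F x ≠ 0) {ε : ℝ} (hε : 0 < ε) :
    ∃ y, 0 < y * x ∧ |y| < ε ∧ |F x| / |x| ≤ |F y| / |y| := by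
  set H := Function.surjInv h.surj with hH
  have hGH : ∀ x, G (H x) = x := Function.surjInv_eq h.surj
  set T : ℝ → ℝ := fun x => F (H x) with hT
  have hTabs : ∀ x, |T x| = |x| - |H x| := by
    intro x
    have := h.habs (H x)
    rw [hGH] at this
    simp only [hT]
    linarith
  have hGT : ∀ x, G (T x) = F x := by
    intro x
    simp only [hT]
    rw [← h.comm, hGH]
  have step : ∀ x, x ≠ 0 → F x ≠ 0 → T x ≠ 0 ∧ F (T x) ≠ 0 ∧ 0 < T x * x ∧
      |F x| / |x| ≤ |F (T x)| / |T x| := by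
    intro x hx hF
    have hHx : H x ≠ 0 := by
      intro h0
      have := hGH x
      rw [h0, h.G_zero] at this
      exact hx this.symm
    have hTx : T x ≠ 0 := by
      intro h0
      have := hGT x
      rw [h0, h.G_zero] at this
      exact hF this.symm
    have hr : |F x| / |x| ≤ |F (T x)| / |T x| := by
      have := h.ratio_G_le_F hHx hTx
      rwa [hGH] at this
    have hs : 0 ≤ T x * x := by
      have := h.sgn (H x)
      rwa [hGH] at this
    refine ⟨hTx, ?_, lt_of_le_of_ne hs (mul_ne_zero hTx hx).symm, hr⟩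
    intro h0
    rw [h0] at hr
    simp only [abs_zero, zero_div] at hr
    have : 0 < |F x| / |x| := div_pos (abs_pos.mpr hF) (abs_pos.mpr hx)
    linarith
  have all : ∀ n : ℕ, T^[n] x ≠ 0 ∧ F (T^[n] x) ≠ 0 ∧ 0 < T^[n] x * x ∧
      |F x| / |x| ≤ |F (T^[n] x)| / |T^[n] x| := by
    intro n
    induction n with
    | zero => exact ⟨hx, hF, by simpa using mul_self_pos.mpr hx, by simp⟩
    | succ n ih =>
      rw [Function.iterate_succ_apply']
      obtain ⟨h1, h2, h3, h4⟩ := ih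
      obtain ⟨g1, g2, g3, g4⟩ := step _ h1 h2
      refine ⟨g1, g2, ?_, h4.trans g4⟩
      have : 0 < (T (T^[n] x) * T^[n] x) * (T^[n] x * x) := mul_pos g3 h3
      have e : (T (T^[n] x) * T^[n] x) * (T^[n] x * x) =
          (T^[n] x) ^ 2 * (T (T^[n] x) * x) := by ring
      rw [e] at this
      exact (pos_iff_pos_of_mul_pos this).mp (by positivity)
  have hanti : Antitone (fun n : ℕ => |T^[n] x|) := by
    refine antitone_nat_of_succ_le fun n => ?_
    rw [Function.iterate_succ_apply', hTabs]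
    linarith [abs_nonneg (H (T^[n] x))]
  have hbdd : BddBelow (range fun n : ℕ => |T^[n] x|) :=
    ⟨0, by rintro _ ⟨n, rfl⟩; exact abs_nonneg _⟩
  have hlim := tendsto_atTop_ciInf hanti hbdd
  set ℓ := ⨅ n : ℕ, |T^[n] x| with hℓ
  have hlim' : Tendsto (fun n : ℕ => |T^[n + 1] x|) atTop (𝓝 ℓ) :=
    (tendsto_add_atTop_iff_nat 1).mpr hlim
  have hH0 : Tendsto (fun n : ℕ => |H (T^[n] x)|) atTop (𝓝 0) := by
    have : Tendsto (fun n : ℕ => |T^[n] x| - |T^[n + 1] x|) atTop (𝓝 (ℓ - ℓ)) :=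
      hlim.sub hlim'
    rw [sub_self] at this
    refine this.congr fun n => ?_
    rw [Function.iterate_succ_apply', hTabs]
    ring
  have hH1 : Tendsto (fun n : ℕ => H (T^[n] x)) atTop (𝓝 0) :=
    (tendsto_zero_iff_abs_tendsto_zero _).mpr hH0
  have hG1 : Tendsto (fun n : ℕ => |G (H (T^[n] x))|) atTop (𝓝 |G 0|) :=
    ((h.contG.tendsto 0).comp hH1).abs
  rw [h.G_zero, abs_zero] at hG1
  have hG2 : Tendsto (fun n : ℕ => |T^[n] x|) atTop (𝓝 0) := by
    refine hG1.congr fun n => ?_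
    rw [hGH]
  obtain ⟨n, hn⟩ := (hG2.eventually_lt_const hε).exists
  exact ⟨T^[n] x, (all n).2.2.1, hn, (all n).2.2.2⟩

lemma bound : ∃ C : ℝ, 0 ≤ C ∧ ∀ x, x ≠ 0 → |F x| / |x| ≤ C := by
  obtain ⟨C, hC, hb⟩ := h.bound_near
  refine ⟨C, hC, fun x hx => ?_⟩
  by_cases hF : F x = 0
  · rw [hF]; simpa using hC
  obtain ⟨y, hy1, hy2, hy3⟩ := h.small hx hF one_pos
  have hy0 : y ≠ 0 := by rintro rfl; simp at hy1
  exact hy3.trans (hb y hy0 hy2.le)

lemma abs_Giter_le {C : ℝ} (hC : 0 ≤ C) {x : ℝ} (hx : x ≠ 0) (k : ℕ)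
    (hb : ∀ j < k, |F (G^[j] x)| / |G^[j] x| ≤ C) : |G^[k] x| ≤ (1 + C) ^ k * |x| := by
  induction k with
  | zero => simp
  | succ k ih =>
    have ih' := ih fun j hj => hb j (by omega)
    have hk := hb k (by omega)
    have hpos : 0 < |G^[k] x| := abs_pos.mpr (h.Giter_ne hx k)
    rw [div_le_iff₀ hpos] at hk
    rw [Function.iterate_succ_apply', h.habs, pow_succ]
    nlinarith

lemma le_abs_Giter {s : ℝ} (hs : 0 ≤ s) {x : ℝ} (hx : x ≠ 0) (hr : s ≤ |F x| / |x|) (k : ℕ) :
    (1 + s) ^ k * |x| ≤ |G^[k] x| := by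
  induction k with
  | zero => simp
  | succ k ih =>
    have hk := hr.trans (h.ratio_le_Giter hx k)
    have hpos : 0 < |G^[k] x| := abs_pos.mpr (h.Giter_ne hx k)
    rw [le_div_iff₀ hpos] at hk
    rw [Function.iterate_succ_apply', h.habs, pow_succ]
    nlinarith

/-- The ratio is constant on each ray. -/
theorem ratio_le_of_same_ray {x y : ℝ} (hxy : 0 < x * y) : |F x| / |x| ≤ |F y| / |y| := by
  by_contra hlt
  push Not at hlt
  have hx : x ≠ 0 := by rintro rfl; simp at hxy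
  have hy : y ≠ 0 := by rintro rfl; simp at hxy
  set s := |F x| / |x| with hs
  set ρ := |F y| / |y| with hρ
  have hρ0 : 0 ≤ ρ := by positivity
  have hs0 : 0 < s := lt_of_le_of_lt hρ0 hlt
  have hF : F x ≠ 0 := by
    intro h0
    rw [hs, h0] at hs0
    simp at hs0
  obtain ⟨C, hC, hb⟩ := h.bound
  -- choose K0
  have hq : 1 < (1 + s) / (1 + ρ) := by
    rw [lt_div_iff₀ (by linarith)]; linarith
  obtain ⟨K0, hK0⟩ := pow_unbounded_of_one_lt ((1 + C) ^ 2) hq
  -- the small point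
  have hyabs : 0 < |y| := abs_pos.mpr hy
  obtain ⟨z, hz1, hz2, hz3⟩ := h.small hx hF (ε := |y| / (1 + C) ^ (2 * K0)) (by positivity)
  have hz0 : z ≠ 0 := by rintro rfl; simp at hz1
  have hzy : 0 < z * y := by
    have : 0 < (z * x) * (x * y) := mul_pos hz1 hxy
    have e : (z * x) * (x * y) = x ^ 2 * (z * y) := by ring
    rw [e] at this
    exact (pos_iff_pos_of_mul_pos this).mp (by positivity)
  have hzabs : 0 < |z| := abs_pos.mpr hz0
  -- iterates of `G ∘ G`
  have hex : ∃ k : ℕ, |y| < |G^[2 * k] z| := by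
    obtain ⟨k, hk⟩ := pow_unbounded_of_one_lt (|y| / |z|) (by linarith : 1 < 1 + s)
    refine ⟨k, ?_⟩
    have h1 := h.le_abs_Giter hs0.le hz0 hz3 (2 * k)
    rw [div_lt_iff₀ hzabs] at hk
    have h2 : (1 + s) ^ k ≤ (1 + s) ^ (2 * k) :=
      pow_le_pow_right₀ (by linarith) (by omega)
    nlinarith
  classical
  have hkspec := Nat.find_spec hex
  have hmin := fun j => Nat.find_min (H := hex) (m := j)
  set k1 := Nat.find hex with hk1
  have hK0lt : K0 < k1 := by
    by_contra hle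
    push Not at hle
    have h1 := h.abs_Giter_le hC hz0 (2 * k1) (fun j _ => hb _ (h.Giter_ne hz0 j))
    have h2 : (1 + C) ^ (2 * k1) ≤ (1 + C) ^ (2 * K0) :=
      pow_le_pow_right₀ (by linarith) (by omega)
    rw [lt_div_iff₀ (by positivity)] at hz2
    nlinarith
  obtain ⟨k, hk⟩ : ∃ k, k1 = k + 1 := ⟨k1 - 1, by omega⟩
  have hkle := hmin k (by omega)
  push Not at hkle
  have hKk : K0 ≤ k := by omega
  -- signs of even iterates
  have hsgn : ∀ (m : ℕ) (w : ℝ), w ≠ 0 → 0 < w * G^[2 * m] w := by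
    intro m
    induction m with
    | zero => intro w hw; simpa using mul_self_pos.mpr hw
    | succ m ih =>
      intro w hw
      have e : 2 * (m + 1) = 2 * m + 1 + 1 := by ring
      rw [e, Function.iterate_succ_apply', Function.iterate_succ_apply']
      have h1 := ih w hw
      have hne := h.Giter_ne hw (2 * m)
      have h2 : 0 < G^[2 * m] w * G (G (G^[2 * m] w)) :=
        lt_of_le_of_ne (h.sgn2 _) (mul_ne_zero hne (h.G_ne (h.G_ne hne))).symm
      have : 0 < (w * G^[2 * m] w) * (G^[2 * m] w * G (G (G^[2 * m] w))) := mul_pos h1 h2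
      have e : (w * G^[2 * m] w) * (G^[2 * m] w * G (G (G^[2 * m] w)))
          = (G^[2 * m] w) ^ 2 * (w * G (G (G^[2 * m] w))) := by ring
      rw [e] at this
      exact (pos_iff_pos_of_mul_pos this).mp (by positivity)
  have hs1 : 0 < G^[2 * k] z * y := by
    have := mul_pos (hsgn k z hz0) hzy
    have e : (z * G^[2 * k] z) * (z * y) = z ^ 2 * (G^[2 * k] z * y) := by ring
    rw [e] at this
    exact (pos_iff_pos_of_mul_pos this).mp (by positivity)
  have hs2 : 0 < G^[2 * k1] z * y := by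
    have := mul_pos (hsgn k1 z hz0) hzy
    have e : (z * G^[2 * k1] z) * (z * y) = z ^ 2 * (G^[2 * k1] z * y) := by ring
    rw [e] at this
    exact (pos_iff_pos_of_mul_pos this).mp (by positivity)
  have hGG : G^[2 * k] (G (G z)) = G^[2 * k1] z := by
    rw [hk, show 2 * (k + 1) = 2 * k + 1 + 1 by ring, Function.iterate_succ_apply,
      Function.iterate_succ_apply]
  have hcontk : Continuous (G^[2 * k]) := h.contG.iterate _
  have hivt : y ∈ G^[2 * k] '' uIcc z (G (G z)) := by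
    apply intermediate_value_uIcc hcontk.continuousOn
    rw [hGG]
    rcases lt_or_gt_of_ne hy with hyn | hyp
    · have a1 : G^[2 * k] z < 0 := by nlinarith
      have a2 : G^[2 * k1] z < 0 := by nlinarith
      rw [abs_of_neg a1, abs_of_neg hyn] at hkle
      rw [abs_of_neg a2, abs_of_neg hyn] at hkspec
      exact mem_uIcc.mpr (Or.inr ⟨by linarith, by linarith⟩)
    · have a1 : 0 < G^[2 * k] z := by nlinarith
      have a2 : 0 < G^[2 * k1] z := by nlinarith
      rw [abs_of_pos a1, abs_of_pos hyp] at hkle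
      rw [abs_of_pos a2, abs_of_pos hyp] at hkspec
      exact mem_uIcc.mpr (Or.inl ⟨by linarith, by linarith⟩)
  obtain ⟨w, hw, hwy⟩ := hivt
  have hw0 : w ≠ 0 := by
    rintro rfl
    have : G^[2 * k] 0 = 0 := Function.iterate_fixed h.G_zero _
    rw [this] at hwy
    exact hy hwy.symm
  have hwabs : |w| ≤ (1 + C) ^ 2 * |z| := by
    have h1 : |G (G z)| ≤ (1 + C) ^ 2 * |z| := by
      have := h.abs_Giter_le hC hz0 2 (fun j _ => hb _ (h.Giter_ne hz0 j))
      simpa [Function.iterate_succ_apply'] using this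
    have h2 : |w| ≤ max |z| |G (G z)| := by
      rcases mem_uIcc.mp hw with ⟨h1, h2⟩ | ⟨h1, h2⟩
      · exact abs_le_max_abs_abs h1 h2
      · rw [max_comm]; exact abs_le_max_abs_abs h1 h2
    have h3 : |z| ≤ (1 + C) ^ 2 * |z| := by nlinarith [sq_nonneg C]
    exact h2.trans (max_le h3 h1)
  have hyup : |y| ≤ (1 + ρ) ^ (2 * k) * |w| := by
    have := h.abs_Giter_le hρ0 hw0 (2 * k) (fun j hj => by
      have e : G^[2 * k] w = G^[2 * k - j] (G^[j] w) := by
        rw [← Function.iterate_add_apply]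
        congr 1
        omega
      have := h.ratio_le_Giter (h.Giter_ne hw0 j) (2 * k - j)
      rw [← e, hwy] at this
      exact this)
    rwa [hwy] at this
  have hzlow := h.le_abs_Giter hs0.le hz0 hz3 (2 * k)
  have hfin : (1 + s) ^ (2 * k) ≤ (1 + ρ) ^ (2 * k) * (1 + C) ^ 2 := by
    have : (1 + s) ^ (2 * k) * |z| ≤ (1 + ρ) ^ (2 * k) * (1 + C) ^ 2 * |z| := by
      calc (1 + s) ^ (2 * k) * |z| ≤ |G^[2 * k] z| := hzlow
        _ ≤ |y| := hkle
        _ ≤ (1 + ρ) ^ (2 * k) * |w| := hyup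
        _ ≤ (1 + ρ) ^ (2 * k) * ((1 + C) ^ 2 * |z|) := by gcongr
        _ = (1 + ρ) ^ (2 * k) * (1 + C) ^ 2 * |z| := by ring
    exact le_of_mul_le_mul_right this hzabs
  have hfin2 : ((1 + s) / (1 + ρ)) ^ (2 * k) ≤ (1 + C) ^ 2 := by
    rw [div_pow, div_le_iff₀ (by positivity)]
    linarith
  have : ((1 + s) / (1 + ρ)) ^ K0 ≤ ((1 + s) / (1 + ρ)) ^ (2 * k) :=
    pow_le_pow_right₀ hq.le (by omega)
  linarith

end Pair

end Pool.Agent.R739.FunEq
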