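import Mathlib

/-!
Sign analysis for continuous solutions of `f (x + f x) = f x + f (f x)`.
-/

open Set Function Filter Topology

namespace Pool.Agent.R739.FunEq

/-- Continuous solutions of the functional equation. -/
structure Sol (f : ℝ → ℝ) : Prop where
  cont : Continuous f
  eq : ∀ x, f (x + f x) = f x + f (f x)

namespace Sol

variable {f : ℝ → ℝ}

/-- `g x = x + f x`. -/
def gg (f : ℝ → ℝ) (x : ℝ) : ℝ := x + f x

lemma zero (h : Sol f) : f 0 = 0 := by
  have := h.eq 0
  rw [zero_add] at this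
  linarith

lemma comm (h : Sol f) (x : ℝ) : f (gg f x) = gg f (f x) := h.eq x

lemma gg_zero (h : Sol f) : gg f 0 = 0 := by
  simp [gg, h.zero]

lemma contg (h : Sol f) : Continuous (gg f) := continuous_id.add h.cont

lemma comm_iter (h : Sol f) (k : ℕ) (x : ℝ) : f ((gg f)^[k] x) = (gg f)^[k] (f x) := by
  have hc : Function.Commute f (gg f) := fun x => h.comm x
  exact (hc.iterate_right k) x

/-- The reflected solution. -/
lemma refl (h : Sol f) : Sol (fun x => - f (-x)) where
  cont := (h.cont.comp continuous_neg).neg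
  eq := by
    intro x
    have := h.eq (-x)
    have e1 : -(x + -f (-x)) = -x + f (-x) := by ring
    have e2 : -(-f (-x)) = f (-x) := by ring
    simp only [e1, e2, this]
    ring

/-- The partial sums of the `g`-orbit. -/
noncomputable def S (f : ℝ → ℝ) (k : ℕ) (y : ℝ) : ℝ := ∑ i ∈ Finset.range k, (gg f)^[i] y

lemma S_cont (h : Sol f) (k : ℕ) : Continuous (S f k) :=
  continuous_finsetSum _ fun i _ => h.contg.iterate i

lemma S_zero (h : Sol f) (k : ℕ) : S f k 0 = 0 :=
  Finset.sum_eq_zero fun i _ => Function.iterate_fixed h.gg_zero i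

lemma iter_eq (h : Sol f) (k : ℕ) (x : ℝ) : (gg f)^[k] x = x + S f k (f x) := by
  induction k with
  | zero => simp [S]
  | succ k ih =>
    rw [Function.iterate_succ_apply', S, Finset.sum_range_succ]
    have : gg f ((gg f)^[k] x) = (gg f)^[k] x + f ((gg f)^[k] x) := rfl
    rw [this, h.comm_iter]
    have e : S f k (f x) = ∑ i ∈ Finset.range k, (gg f)^[i] (f x) := rfl
    rw [← e]
    linarith

/-- **Lemma B.** If `f ≥ 0` on `[0, a]`, then `f ≤ 0` on `[-a, 0]`. -/
lemma lemB (h : Sol f) {a : ℝ} (ha : 0 < a) (hf : ∀ x, 0 ≤ x → x ≤ a → 0 ≤ f x) :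
    ∀ x, -a ≤ x → x ≤ 0 → f x ≤ 0 := by
  by_contra hcon
  push Not at hcon
  obtain ⟨y, hy1, hy2, hy3⟩ := hcon
  have hy0 : y < 0 := by
    rcases eq_or_lt_of_le hy2 with h0 | h0
    · rw [h0, h.zero] at hy3; linarith
    · exact h0
  -- `g` has no zero on `[-a, 0)`
  have hgne : ∀ b, -a ≤ b → b < 0 → gg f b ≠ 0 := by
    intro b hb1 hb2 h0
    have e1 : f b = -b := by
      have : b + f b = 0 := h0
      linarith
    have e2 := h.comm b
    rw [h0, h.zero, e1] at e2
    have e3 : -b + f (-b) = 0 := e2.symm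
    have := hf (-b) (by linarith) (by linarith)
    linarith
  -- sign of `g` on `[-a, 0)`
  have hgpos : ∀ b, -a ≤ b → b < 0 → 0 < gg f b := by
    by_contra hc
    push Not at hc
    obtain ⟨b, hb1, hb2, hb3⟩ := hc
    have hall : ∀ x, -a ≤ x → x < 0 → gg f x < 0 := by
      intro x hx1 hx2
      by_contra hx3
      push Not at hx3
      have hmem : (0 : ℝ) ∈ gg f '' uIcc b x := by
        apply intermediate_value_uIcc h.contg.continuousOn
        exact mem_uIcc.mpr (Or.inl ⟨hb3, hx3⟩)
      obtain ⟨c, hc1, hc2⟩ := hmem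
      have hcneg : c < 0 := by
        rcases mem_uIcc.mp hc1 with ⟨_, h2⟩ | ⟨_, h2⟩ <;> linarith
      have hca : -a ≤ c := by
        rcases mem_uIcc.mp hc1 with ⟨h2, _⟩ | ⟨h2, _⟩ <;> linarith
      exact hgne c hca hcneg hc2
    -- iterate
    have hit : ∀ n : ℕ, y + n * f y ≤ (gg f)^[n] y ∧ (gg f)^[n] y < 0 ∧
        f y ≤ f ((gg f)^[n] y) := by
      intro n
      induction n with
      | zero => simp [hy0]
      | succ n ih =>
        obtain ⟨i1, i2, i3⟩ := ih
        set w := (gg f)^[n] y with hw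
        rw [Function.iterate_succ_apply', ← hw]
        have hnn : (0 : ℝ) ≤ n * f y := by positivity
        have hwy : -a ≤ w := by linarith
        have g1 := hall w hwy i2
        have g1' : w + f w < 0 := g1
        have hge : gg f w = w + f w := rfl
        have hfw : 0 ≤ f (f w) := hf (f w) (by linarith) (by linarith)
        refine ⟨?_, g1, ?_⟩
        · rw [hge]; push_cast; linarith
        · rw [h.comm]
          have : gg f (f w) = f w + f (f w) := rfl
          rw [this]; linarith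
    obtain ⟨n, hn⟩ := exists_nat_gt (-y / f y)
    rw [div_lt_iff₀ hy3] at hn
    obtain ⟨i1, i2, -⟩ := hit n
    linarith
  -- the chain
  obtain ⟨η, hη0, hηa, hη⟩ : ∃ η, 0 < η ∧ η ≤ a ∧ ∀ s, 0 ≤ s → s ≤ η → f (-s) ≤ a := by
    have hc : ContinuousAt (fun s => f (-s)) 0 := (h.cont.comp continuous_neg).continuousAt
    have hlt : (fun s => f (-s)) 0 < a := by simpa [h.zero] using ha
    have := hc.eventually_lt continuousAt_const hlt
    obtain ⟨ε, hε, hb⟩ := Metric.eventually_nhds_iff.mp this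
    refine ⟨min (ε / 2) a, by positivity, min_le_right _ _, fun s hs0 hs => ?_⟩
    have : dist s 0 < ε := by
      rw [Real.dist_eq, sub_zero, abs_of_nonneg hs0]
      linarith [min_le_left (ε / 2) a]
    exact (hb this).le
  set T := gg f (-η) with hT
  have hT0 : 0 < T := hgpos (-η) (by linarith) (by linarith)
  have hstep : ∀ t, 0 < t → t ≤ T → ∃ z, t < z ∧ z ≤ a ∧ f z = f t - z := by
    intro t ht0 htT
    have hmem : t ∈ gg f '' uIcc (-η) 0 := by
      apply intermediate_value_uIcc h.contg.continuousOn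
      rw [h.gg_zero]
      exact mem_uIcc.mpr (Or.inr ⟨ht0.le, htT⟩)
    obtain ⟨s, hs1, hs2⟩ := hmem
    rw [uIcc_of_le (by linarith)] at hs1
    have hsneg : s < 0 := by
      rcases eq_or_lt_of_le hs1.2 with h0 | h0
      · rw [h0, h.gg_zero] at hs2; linarith
      · exact h0
    have e1 : s + f s = t := hs2
    have e2 : f t = f s + f (f s) := by
      rw [← hs2]; exact h.comm s
    have hle := hη (-s) (by linarith) (by linarith [hs1.1])
    rw [neg_neg] at hle
    exact ⟨f s, by linarith, hle, by linarith⟩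
  -- start
  obtain ⟨t0, ht0, ht0T, ht0a, hft0⟩ : ∃ t0, 0 < t0 ∧ t0 ≤ T ∧ t0 ≤ a ∧ f t0 ≤ T := by
    have hc : ContinuousAt f 0 := h.cont.continuousAt
    have hlt : f 0 < T := by rw [h.zero]; exact hT0
    have := hc.eventually_lt continuousAt_const hlt
    obtain ⟨ε, hε, hb⟩ := Metric.eventually_nhds_iff.mp this
    refine ⟨min (ε / 2) (min T a), by positivity, ?_, ?_, ?_⟩
    · exact (min_le_right _ _).trans (min_le_left _ _)
    · exact (min_le_right _ _).trans (min_le_right _ _)
    · refine (hb ?_).le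
      rw [Real.dist_eq, sub_zero, abs_of_nonneg (by positivity)]
      linarith [min_le_left (ε / 2) (min T a)]
  have hchain : ∀ n : ℕ, ∃ t, t0 ≤ t ∧ t ≤ a ∧ t ≤ T ∧ f t ≤ f t0 - n * t0 := by
    intro n
    induction n with
    | zero => exact ⟨t0, le_rfl, ht0a, ht0T, by simp⟩
    | succ n ih =>
      obtain ⟨t, h1, h2, h3, h4⟩ := ih
      obtain ⟨z, z1, z2, z3⟩ := hstep t (by linarith) h3
      have hfz := hf z (by linarith) z2
      have hnn : (0 : ℝ) ≤ n * t0 := by positivity
      refine ⟨z, by linarith, z2, by linarith, ?_⟩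
      push_cast
      linarith
  obtain ⟨n, hn⟩ := exists_nat_gt (f t0 / t0)
  rw [div_lt_iff₀ ht0] at hn
  obtain ⟨t, h1, h2, h3, h4⟩ := hchain n
  have := hf t (by linarith) h2
  linarith

/-- **Lemma C.** -/
lemma lemC (h : Sol f) {a : ℝ} (ha : 0 < a) (hf : ∀ x, 0 ≤ x → x ≤ a → 0 ≤ f x)
    (hf' : ∀ x, -a ≤ x → x ≤ 0 → f x ≤ 0) : ∀ x, 0 ≤ x → 0 ≤ f x := by
  by_contra hcon
  push Not at hcon
  obtain ⟨p, hp0, hp⟩ := hcon
  set A : Set ℝ := {x | 0 ≤ x ∧ f x < 0} with hA
  have hAne : A.Nonempty := ⟨p, hp0, hp⟩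
  have hAbdd : BddBelow A := ⟨0, fun x hx => hx.1⟩
  set c := sInf A with hc
  have hac : a ≤ c := by
    refine le_csInf hAne fun x hx => ?_
    by_contra hlt
    push Not at hlt
    have := hf x hx.1 hlt.le
    linarith [hx.2]
  have hbelow : ∀ x, 0 ≤ x → x < c → 0 ≤ f x := by
    intro x hx0 hxc
    by_contra hneg
    push Not at hneg
    exact absurd (csInf_le hAbdd ⟨hx0, hneg⟩) (not_le.mpr hxc)
  have hc0 : 0 < c := by linarith
  have hfc : 0 ≤ f c := by
    have hcl : IsClosed {x : ℝ | 0 ≤ f x} := isClosed_le continuous_const h.cont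
    have hsub : Ico 0 c ⊆ {x : ℝ | 0 ≤ f x} := fun x hx => hbelow x hx.1 hx.2
    have := hcl.closure_subset_iff.mpr hsub
    rw [closure_Ico hc0.ne] at this
    exact this ⟨hc0.le, le_rfl⟩
  have hnear : ∀ ε > 0, ∃ x ∈ A, x < c + ε := by
    intro ε hε
    exact exists_lt_of_csInf_lt hAne (by linarith)
  -- continuity bounds
  obtain ⟨ε, hε0, hεa, hεg⟩ : ∃ ε, 0 < ε ∧ ε ≤ a ∧ ∀ t, |t| ≤ ε → |gg f t| ≤ a := by
    have hc : ContinuousAt (fun t => |gg f t|) 0 := h.contg.abs.continuousAt
    have hlt : (fun t => |gg f t|) 0 < a := by simpa [h.gg_zero] using ha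
    have := hc.eventually_lt continuousAt_const hlt
    obtain ⟨ε, hε, hb⟩ := Metric.eventually_nhds_iff.mp this
    refine ⟨min (ε / 2) a, by positivity, min_le_right _ _, fun s hs => ?_⟩
    have : dist s 0 < ε := by
      rw [Real.dist_eq, sub_zero]
      linarith [min_le_left (ε / 2) a]
    exact (hb this).le
  have hfc0 : f c ≤ 0 := by
    by_contra hpos
    push Not at hpos
    have hev : ∀ᶠ x in 𝓝 c, 0 < f x :=
      (continuousAt_const (y := (0 : ℝ))).eventually_lt h.cont.continuousAt hpos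
    obtain ⟨δ, hδ, hb⟩ := Metric.eventually_nhds_iff.mp hev
    obtain ⟨x, hxA, hx⟩ := hnear δ hδ
    have hxc : c ≤ x := csInf_le hAbdd hxA
    have : dist x c < δ := by
      rw [Real.dist_eq, abs_of_nonneg (by linarith)]; linarith
    linarith [hb this, hxA.2]
  have hfc' : f c = 0 := le_antisymm hfc0 hfc
  -- the starting point
  obtain ⟨x, hx1, hx2, hx3, hx4⟩ : ∃ x, c < x ∧ x < c + ε ∧ f x < 0 ∧ -ε ≤ f x := by
    have hev : ∀ᶠ x in 𝓝 c, -ε < f x :=
      (continuousAt_const (y := -ε)).eventually_lt h.cont.continuousAt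
        (by show -ε < f c; rw [hfc']; linarith)
    obtain ⟨δ, hδ, hb⟩ := Metric.eventually_nhds_iff.mp hev
    obtain ⟨x, hxA, hx⟩ := hnear (min δ ε) (by positivity)
    have hxc : c ≤ x := csInf_le hAbdd hxA
    have hxc' : c < x := by
      rcases eq_or_lt_of_le hxc with h0 | h0
      · have := hxA.2
        rw [← h0, hfc'] at this
        linarith
      · exact h0
    have : dist x c < δ := by
      rw [Real.dist_eq, abs_of_nonneg (by linarith)]
      linarith [min_le_left δ ε]
    exact ⟨x, hxc', by linarith [min_le_right δ ε], hxA.2, (hb this).le⟩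
  have hfle : ∀ x, 0 ≤ x → x ≤ c → 0 ≤ f x := by
    intro x h0 h1
    rcases eq_or_lt_of_le h1 with h2 | h2
    · rw [h2]; exact hfc
    · exact hbelow x h0 h2
  have hit : ∀ n : ℕ, c < (gg f)^[n] x ∧ (gg f)^[n] x ≤ x + n * f x ∧
      f ((gg f)^[n] x) ≤ f x ∧ -a ≤ f ((gg f)^[n] x) := by
    intro n
    induction n with
    | zero => exact ⟨by simpa using hx1, by simp, by simp, by
        simp only [Function.iterate_zero, id_eq]; linarith⟩
    | succ n ih =>
      obtain ⟨i1, i2, i3, i4⟩ := ih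
      set w := (gg f)^[n] x with hw
      rw [Function.iterate_succ_apply', ← hw]
      have hge : gg f w = w + f w := rfl
      have hnn : (n : ℝ) * f x ≤ 0 := mul_nonpos_of_nonneg_of_nonpos (by positivity) hx3.le
      have hfg : f (gg f w) = f w + f (f w) := h.comm w
      have hffw : f (f w) ≤ 0 := hf' (f w) i4 (by linarith)
      have hcw : c < gg f w := by
        by_contra hle
        push Not at hle
        have := hfle (gg f w) (by rw [hge]; linarith) hle
        linarith
      refine ⟨hcw, ?_, ?_, ?_⟩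
      · rw [hge]; push_cast; linarith
      · linarith
      · have habs : |f w| ≤ ε := by
          rw [abs_le]
          constructor
          · rw [hge] at hcw; linarith
          · linarith
        have := (abs_le.mp (hεg (f w) habs)).1
        have e : gg f (f w) = f w + f (f w) := rfl
        rw [e] at this
        linarith
  obtain ⟨n, hn⟩ := exists_nat_gt ((x - c) / (-f x))
  rw [div_lt_iff₀ (by linarith)] at hn
  obtain ⟨i1, i2, -, -⟩ := hit n
  nlinarith

/-- The outward case. -/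
lemma outward (h : Sol f) {a : ℝ} (ha : 0 < a) (hf : ∀ x, 0 ≤ x → x ≤ a → 0 ≤ f x) :
    ∀ x, 0 ≤ x * f x := by
  have hB := h.lemB ha hf
  have h1 := h.lemC ha hf hB
  have h2 := h.refl.lemC ha (fun x hx0 hxa => by
      have := hB (-x) (by linarith) (by linarith)
      simpa using this) (fun x hx0 hxa => by
      have := hf (-x) (by linarith) (by linarith)
      simpa using this)
  intro x
  rcases le_total 0 x with hx | hx
  · exact mul_nonneg hx (h1 x hx)
  · have := h2 (-x) (by linarith)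
    simp only [neg_neg] at this
    exact mul_nonneg_of_nonpos_of_nonpos hx (by linarith)

/-- In the inward case there is no negative zero. -/
lemma no_neg_zero (h : Sol f) (hR1 : ∀ ε > 0, ∃ x, 0 < x ∧ x < ε ∧ f x < 0)
    (hR2 : ∀ ε > 0, ∃ x, -ε < x ∧ x < 0 ∧ 0 < f x) : ∀ a, a < 0 → f a ≠ 0 := by
  intro a ha hfa
  obtain ⟨p, hp1, hp2, hp3⟩ := hR2 (-a) (by linarith)
  rw [neg_neg] at hp1
  -- last zero before `p`
  set A : Set ℝ := {x | x ∈ Icc a p ∧ f x ≤ 0} with hA
  have hAne : A.Nonempty := ⟨a, ⟨le_rfl, hp1.le⟩, hfa.le⟩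
  have hAcomp : IsCompact A := by
    have : A = Icc a p ∩ {x | f x ≤ 0} := rfl
    rw [this]
    exact isCompact_Icc.inter_right (isClosed_le h.cont continuous_const)
  set c := sSup A with hc
  have hcA : c ∈ A := hAcomp.sSup_mem hAne
  have hcp : c < p := by
    rcases eq_or_lt_of_le hcA.1.2 with h0 | h0
    · have := hcA.2
      rw [h0] at this
      linarith
    · exact h0
  have hpos : ∀ x, c < x → x ≤ p → 0 < f x := by
    intro x hx1 hx2
    by_contra hneg
    push Not at hneg
    have : x ≤ c := le_csSup hAcomp.bddAbove ⟨⟨by linarith [hcA.1.1], hx2⟩, hneg⟩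
    linarith
  have hfc : f c = 0 := by
    refine le_antisymm hcA.2 ?_
    have hcl : IsClosed {x : ℝ | 0 ≤ f x} := isClosed_le continuous_const h.cont
    have hsub : Ioc c p ⊆ {x : ℝ | 0 ≤ f x} := fun x hx => (hpos x hx.1 hx.2).le
    have := hcl.closure_subset_iff.mpr hsub
    rw [closure_Ioc hcp.ne] at this
    exact this ⟨le_rfl, hcp.le⟩
  obtain ⟨ξ, hξ0, hξ1, hξf⟩ := hR1 (p - c) (by linarith)
  have hcξ : 0 < f (c + ξ) := hpos _ (by linarith) (by linarith)
  -- neighborhoods
  obtain ⟨δ, hδ0, hδp, hδ1, hδ2⟩ : ∃ δ, 0 < δ ∧ c + δ + ξ ≤ p ∧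
      (∀ t, |t| < δ → f (t + ξ) < 0) ∧ (∀ t, |t - c| < δ → 0 < f (t + ξ)) := by
    have h1 : ∀ᶠ t in 𝓝 (0 : ℝ), f (t + ξ) < 0 := by
      have hc : ContinuousAt (fun t => f (t + ξ)) 0 :=
        (h.cont.comp (continuous_id.add continuous_const)).continuousAt
      exact hc.eventually_lt continuousAt_const (by simpa using hξf)
    have h2 : ∀ᶠ t in 𝓝 c, 0 < f (t + ξ) := by
      have hc : ContinuousAt (fun t => f (t + ξ)) c :=
        (h.cont.comp (continuous_id.add continuous_const)).continuousAt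
      exact (continuousAt_const (y := (0 : ℝ))).eventually_lt hc (by simpa using hcξ)
    obtain ⟨δ1, hδ1, hb1⟩ := Metric.eventually_nhds_iff.mp h1
    obtain ⟨δ2, hδ2, hb2⟩ := Metric.eventually_nhds_iff.mp h2
    refine ⟨min (min δ1 δ2) (p - c - ξ), ?_, ?_, ?_, ?_⟩
    · have : 0 < p - c - ξ := by linarith
      positivity
    · linarith [min_le_right (min δ1 δ2) (p - c - ξ)]
    · intro t ht
      refine hb1 ?_
      rw [Real.dist_eq, sub_zero]
      exact ht.trans_le ((min_le_left _ _).trans (min_le_left _ _))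
    · intro t ht
      refine hb2 ?_
      rw [Real.dist_eq]
      exact ht.trans_le ((min_le_left _ _).trans (min_le_right _ _))
  obtain ⟨b, hb1, hb2, hb3⟩ := hR2 δ hδ0
  -- the point near `c`
  obtain ⟨x1, hx1c, hx1δ, hx1v⟩ : ∃ x1, c < x1 ∧ x1 < c + δ ∧ f x1 ≤ f b := by
    have hev : ∀ᶠ x in 𝓝 c, f x < f b :=
      h.cont.continuousAt.eventually_lt continuousAt_const (by simpa [hfc] using hb3)
    obtain ⟨δ', hδ', hb'⟩ := Metric.eventually_nhds_iff.mp hev
    refine ⟨c + min δ' δ / 2, ?_, ?_, ?_⟩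
    · have : 0 < min δ' δ := by positivity
      linarith
    · have : 0 < min δ' δ := by positivity
      linarith [min_le_right δ' δ]
    · refine (hb' ?_).le
      have : 0 < min δ' δ := by positivity
      rw [Real.dist_eq]
      simp only [add_sub_cancel_left]
      rw [abs_of_pos (by positivity)]
      linarith [min_le_left δ' δ]
  have hfx1 : 0 < f x1 := hpos x1 hx1c (by linarith)
  -- the orbit of `x1` moves by at least `ξ`
  obtain ⟨k, hk⟩ : ∃ k : ℕ, x1 + ξ ≤ (gg f)^[k] x1 := by
    by_contra hcon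
    push Not at hcon
    obtain ⟨m, hm, hmin⟩ := (isCompact_Icc (a := x1) (b := x1 + ξ)).exists_isMinOn
      ⟨x1, le_rfl, by linarith⟩ h.cont.continuousOn
    have hm0 : 0 < f m := hpos m (by linarith [hm.1]) (by linarith [hm.2])
    have hit : ∀ n : ℕ, x1 + n * f m ≤ (gg f)^[n] x1 := by
      intro n
      induction n with
      | zero => simp
      | succ n ih =>
        rw [Function.iterate_succ_apply']
        have hmem : (gg f)^[n] x1 ∈ Icc x1 (x1 + ξ) := by
          refine ⟨?_, (hcon n).le⟩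
          have : (0 : ℝ) ≤ n * f m := by positivity
          linarith
        have h1 : f m ≤ f ((gg f)^[n] x1) := hmin hmem
        have h2 : gg f ((gg f)^[n] x1) = (gg f)^[n] x1 + f ((gg f)^[n] x1) := rfl
        rw [h2]; push_cast; linarith
    obtain ⟨n, hn⟩ := exists_nat_gt (ξ / f m)
    rw [div_lt_iff₀ hm0] at hn
    linarith [hit n, hcon n]
  have hS : ξ ≤ S f k (f x1) := by
    rw [h.iter_eq] at hk; linarith
  obtain ⟨y, hy1, hy2⟩ : ξ ∈ S f k '' Icc 0 (f x1) := by
    apply intermediate_value_Icc hfx1.le (h.S_cont k).continuousOn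
    rw [h.S_zero]
    exact ⟨hξ0.le, hS⟩
  obtain ⟨x', hx'1, hx'2⟩ : y ∈ f '' Icc c x1 := by
    apply intermediate_value_Icc hx1c.le h.cont.continuousOn
    rw [hfc]
    exact hy1
  obtain ⟨x'', hx''1, hx''2⟩ : y ∈ f '' Icc b 0 := by
    apply intermediate_value_Icc' hb2.le h.cont.continuousOn
    rw [h.zero]
    exact ⟨hy1.1, hy1.2.trans hx1v⟩
  have e1 : f (x' + ξ) = (gg f)^[k] y := by
    have := h.iter_eq k x'
    rw [hx'2, hy2] at this
    rw [← this, h.comm_iter, hx'2]
  have e2 : f (x'' + ξ) = (gg f)^[k] y := by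
    have := h.iter_eq k x''
    rw [hx''2, hy2] at this
    rw [← this, h.comm_iter, hx''2]
  have p1 := hδ2 x' (by rw [abs_of_nonneg (by linarith [hx'1.1])]; linarith [hx'1.2])
  have p2 := hδ1 x'' (by rw [abs_lt]; constructor <;> linarith [hx''1.1, hx''1.2])
  linarith

/-- **Trichotomy.** Either `x f(x) ≥ 0` everywhere or `x f(x) < 0` off the origin. -/
theorem trichotomy (h : Sol f) : (∀ x, 0 ≤ x * f x) ∨ (∀ x, x ≠ 0 → x * f x < 0) := by
  by_cases h1 : ∃ a > 0, ∀ x, 0 ≤ x → x ≤ a → 0 ≤ f x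
  · obtain ⟨a, ha, hf⟩ := h1
    exact Or.inl (h.outward ha hf)
  by_cases h2 : ∃ a > 0, ∀ x, 0 ≤ x → x ≤ a → 0 ≤ - f (-x)
  · obtain ⟨a, ha, hf⟩ := h2
    refine Or.inl fun x => ?_
    have := h.refl.outward ha hf (-x)
    simp only [neg_neg] at this
    linarith
  right
  push Not at h1 h2
  have hR1 : ∀ ε > 0, ∃ x, 0 < x ∧ x < ε ∧ f x < 0 := by
    intro ε hε
    obtain ⟨x, hx0, hx1, hx2⟩ := h1 (ε / 2) (by linarith)
    have : x ≠ 0 := by
      rintro rfl
      rw [h.zero] at hx2
      exact lt_irrefl _ hx2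
    exact ⟨x, lt_of_le_of_ne hx0 this.symm, by linarith, hx2⟩
  have hR2 : ∀ ε > 0, ∃ x, -ε < x ∧ x < 0 ∧ 0 < f x := by
    intro ε hε
    obtain ⟨x, hx0, hx1, hx2⟩ := h2 (ε / 2) (by linarith)
    have : x ≠ 0 := by
      rintro rfl
      rw [neg_zero, h.zero] at hx2
      simp at hx2
    have hx3 : 0 < x := lt_of_le_of_ne hx0 this.symm
    exact ⟨-x, by linarith, by linarith, by linarith⟩
  have hn1 := h.no_neg_zero hR1 hR2
  have hn2 : ∀ a, 0 < a → f a ≠ 0 := by
    intro a ha h0
    refine h.refl.no_neg_zero ?_ ?_ (-a) (by linarith) (by simpa using h0)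
    · intro ε hε
      obtain ⟨x, hx1, hx2, hx3⟩ := hR2 ε hε
      exact ⟨-x, by linarith, by linarith, by simpa using hx3⟩
    · intro ε hε
      obtain ⟨x, hx1, hx2, hx3⟩ := hR1 ε hε
      exact ⟨-x, by linarith, by linarith, by simpa using hx3⟩
  intro x hx
  rcases lt_or_gt_of_ne hx with hneg | hpos
  · have hf : 0 < f x := by
      by_contra hle
      push Not at hle
      obtain ⟨y, hy1, hy2, hy3⟩ := hR2 (-x) (by linarith)
      rw [neg_neg] at hy1
      obtain ⟨z, hz1, hz2⟩ : (0 : ℝ) ∈ f '' Icc x y := by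
        apply intermediate_value_Icc hy1.le h.cont.continuousOn
        exact ⟨hle, hy3.le⟩
      exact hn1 z (by linarith [hz1.2]) hz2
    nlinarith
  · have hf : f x < 0 := by
      by_contra hle
      push Not at hle
      obtain ⟨y, hy1, hy2, hy3⟩ := hR1 x hpos
      obtain ⟨z, hz1, hz2⟩ : (0 : ℝ) ∈ f '' Icc y x := by
        apply intermediate_value_Icc hy2.le h.cont.continuousOn
        exact ⟨hy3.le, hle⟩
      exact hn2 z (by linarith [hz1.1]) hz2
    nlinarith

end Sol

end Pool.Agent.R739.FunEq
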