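import Pool.Agent.R739.FunEq.Expand
import Pool.Agent.R739.FunEq.Contract
import Pool.Agent.R739.FunEq.Sign

/-!
The classification of the continuous solutions of `f (x + f x) = f x + f (f x)`.
-/

open Set Function Filter Topology

namespace Pool.Agent.R739.FunEq

namespace Sol

variable {f : ℝ → ℝ}

/-- In the inward case, `f` and `f ∘ g` have opposite signs etc. -/
lemma inward_dichotomy (h : Sol f) (hneg : ∀ x, x ≠ 0 → x * f x < 0) :
    (∀ x, x ≠ 0 → 0 < x * gg f x) ∨ (∀ x, x * gg f x ≤ 0) := by
  by_cases hex : ∃ x0, 0 < x0 * gg f x0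
  swap
  · right; push Not at hex; exact hex
  left
  obtain ⟨x0, hx0⟩ := hex
  have hx00 : x0 ≠ 0 := by rintro rfl; simp at hx0
  have hfne : ∀ x, x ≠ 0 → f x ≠ 0 := by
    intro x hx h0
    have := hneg x hx
    rw [h0] at this
    simp at this
  have hfit : ∀ (n : ℕ) x, x ≠ 0 → f^[n] x ≠ 0 := by
    intro n
    induction n with
    | zero => intro x hx; simpa using hx
    | succ n ih => intro x hx; rw [Function.iterate_succ_apply']; exact hfne _ (ih x hx)
  have hgf_iter : ∀ (n : ℕ) x, f^[n] (gg f x) = gg f (f^[n] x) := by
    intro n x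
    have hc : Function.Commute f (gg f) := fun x => h.comm x
    exact (hc.iterate_left n) x
  -- sign helpers
  have fneg : ∀ x, 0 < x → f x < 0 := fun x hx => by
    have := hneg x hx.ne'
    nlinarith
  have fpos : ∀ x, x < 0 → 0 < f x := fun x hx => by
    have := hneg x hx.ne
    nlinarith
  -- D1
  have hD1 : ∀ δ > 0, ∃ x, 0 < x ∧ x < δ ∧ 0 < gg f x := by
    by_contra hcon
    push Not at hcon
    obtain ⟨δ, hδ, hno⟩ := hcon
    -- near zero `|f y| ≥ |y|`
    obtain ⟨δ', hδ', hexp⟩ : ∃ δ' > 0, ∀ y, |y| < δ' → |y| ≤ |f y| := by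
      have hev : ∀ᶠ y in 𝓝 (0 : ℝ), f y < δ :=
        h.cont.continuousAt.eventually_lt continuousAt_const (by simpa [h.zero] using hδ)
      obtain ⟨δ1, hδ1, hb1⟩ := Metric.eventually_nhds_iff.mp hev
      refine ⟨min δ δ1, by positivity, fun y hy => ?_⟩
      rcases lt_trichotomy y 0 with hy0 | hy0 | hy0
      · have hfy := fpos y hy0
        have hfyδ : f y < δ := hb1 (by
          rw [Real.dist_eq, sub_zero]; exact hy.trans_le (min_le_right _ _))
        have h1 := hno (f y) hfy hfyδ
        rw [← h.comm] at h1
        have h2 : 0 ≤ gg f y := by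
          by_contra hlt
          push Not at hlt
          have := fpos _ hlt
          linarith
        have h3 : 0 ≤ y + f y := h2
        rw [abs_of_neg hy0, abs_of_pos hfy]
        linarith
      · rw [hy0, h.zero]
      · have hfy := fneg y hy0
        have hyδ : y < δ := by
          rw [abs_of_pos hy0] at hy
          exact hy.trans_le (min_le_left _ _)
        have h1 := hno y hy0 hyδ
        have h3 : y + f y ≤ 0 := h1
        rw [abs_of_pos hy0, abs_of_neg hfy]
        linarith
    -- the orbit of `w = g x0`
    set w := gg f x0 with hw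
    have hw0 : w ≠ 0 := by
      intro h0
      rw [h0] at hx0
      simp at hx0
    have hsame : ∀ n : ℕ, 0 < f^[n] x0 * f^[n] w := by
      intro n
      induction n with
      | zero => simpa using hx0
      | succ n ih =>
        rw [Function.iterate_succ_apply', Function.iterate_succ_apply']
        have a1 := hneg _ (hfit n x0 hx00)
        have a2 := hneg _ (hfit n w hw0)
        have a3 := mul_pos_of_neg_of_neg a1 a2
        have e : (f^[n] x0 * f (f^[n] x0)) * (f^[n] w * f (f^[n] w)) =
            (f^[n] x0 * f^[n] w) * (f (f^[n] x0) * f (f^[n] w)) := by ring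
        rw [e] at a3
        exact (pos_iff_pos_of_mul_pos a3).mp ih
    have habs : ∀ n : ℕ, |f^[n] w| = |f^[n] x0| - |f^[n + 1] x0| := by
      intro n
      have e1 : f^[n] w = f^[n] x0 + f^[n + 1] x0 := by
        rw [hw, hgf_iter, Function.iterate_succ_apply']
        rfl
      have a1 : f^[n] x0 * f^[n + 1] x0 < 0 := by
        rw [Function.iterate_succ_apply']
        exact hneg _ (hfit n x0 hx00)
      have a2 := hsame n
      rw [e1] at a2 ⊢
      rcases lt_or_gt_of_ne (hfit n x0 hx00) with hn | hp
      · have b1 : 0 < f^[n + 1] x0 := by nlinarith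
        have b2 : f^[n] x0 + f^[n + 1] x0 < 0 := by nlinarith
        rw [abs_of_neg hn, abs_of_pos b1, abs_of_neg b2]; ring
      · have b1 : f^[n + 1] x0 < 0 := by nlinarith
        have b2 : 0 < f^[n] x0 + f^[n + 1] x0 := by nlinarith
        rw [abs_of_pos hp, abs_of_neg b1, abs_of_pos b2]; ring
    have hanti : Antitone fun n : ℕ => |f^[n] x0| := by
      refine antitone_nat_of_succ_le fun n => ?_
      linarith [habs n, abs_nonneg (f^[n] w)]
    have hbdd : BddBelow (range fun n : ℕ => |f^[n] x0|) :=
      ⟨0, by rintro _ ⟨n, rfl⟩; exact abs_nonneg _⟩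
    have hlim := tendsto_atTop_ciInf hanti hbdd
    have hlim' : Tendsto (fun n : ℕ => |f^[n + 1] x0|) atTop (𝓝 (⨅ n : ℕ, |f^[n] x0|)) :=
      (tendsto_add_atTop_iff_nat 1).mpr hlim
    have hw1 : Tendsto (fun n : ℕ => |f^[n] w|) atTop (𝓝 0) := by
      have := hlim.sub hlim'
      rw [sub_self] at this
      exact this.congr fun n => (habs n).symm
    obtain ⟨N, hN⟩ := eventually_atTop.mp (hw1.eventually_lt_const hδ')
    have hge : ∀ k : ℕ, |f^[N] w| ≤ |f^[N + k] w| := by
      intro k
      induction k with
      | zero => simp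
      | succ k ih =>
        rw [← add_assoc, Function.iterate_succ_apply']
        exact ih.trans (hexp _ (hN (N + k) (by omega)))
    have hpos : 0 < |f^[N] w| := abs_pos.mpr (hfit N w hw0)
    obtain ⟨M, hM⟩ := eventually_atTop.mp (hw1.eventually_lt_const hpos)
    have h1 := hM (N + M) (by omega)
    have h2 := hge M
    linarith
  -- D2
  have hD2 : ∀ d, 0 < d → 0 < gg f d := by
    intro d hd
    by_contra hgd
    push Not at hgd
    obtain ⟨x1, hx1, hx1d, hgx1⟩ := hD1 d hd
    set A : Set ℝ := {x | x ∈ Icc x1 d ∧ gg f x ≤ 0} with hA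
    have hAne : A.Nonempty := ⟨d, ⟨hx1d.le, le_rfl⟩, hgd⟩
    have hAcomp : IsCompact A := by
      have : A = Icc x1 d ∩ {x | gg f x ≤ 0} := rfl
      rw [this]
      exact isCompact_Icc.inter_right (isClosed_le h.contg continuous_const)
    set c := sInf A with hc
    have hcA : c ∈ A := hAcomp.sInf_mem hAne
    have hcx1 : x1 < c := by
      rcases eq_or_lt_of_le hcA.1.1 with h0 | h0
      · have := hcA.2
        rw [← h0] at this
        linarith
      · exact h0
    have hpos : ∀ x, x1 ≤ x → x < c → 0 < gg f x := by
      intro x h1 h2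
      by_contra hneg
      push Not at hneg
      have : c ≤ x := csInf_le hAcomp.bddBelow ⟨⟨h1, by linarith [hcA.1.2]⟩, hneg⟩
      linarith
    have hgc : gg f c = 0 := by
      refine le_antisymm hcA.2 ?_
      have hcl : IsClosed {x : ℝ | 0 ≤ gg f x} := isClosed_le continuous_const h.contg
      have hsub : Ico x1 c ⊆ {x : ℝ | 0 ≤ gg f x} := fun x hx => (hpos x hx.1 hx.2).le
      have := hcl.closure_subset_iff.mpr hsub
      rw [closure_Ico hcx1.ne] at this
      exact this ⟨hcx1.le, le_rfl⟩
    set κ := (c - x1) / 2 with hκ
    have hκ0 : 0 < κ := by rw [hκ]; linarith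
    obtain ⟨x2, hx2, hx2κ, hgx2⟩ := hD1 κ hκ0
    obtain ⟨x, hxl, hxc, hgx⟩ : ∃ x, x1 + κ ≤ x ∧ x < c ∧ gg f x ≤ gg f x2 := by
      have hev : ∀ᶠ x in 𝓝 c, gg f x < gg f x2 :=
        h.contg.continuousAt.eventually_lt continuousAt_const (by simpa [hgc] using hgx2)
      obtain ⟨δ', hδ', hb'⟩ := Metric.eventually_nhds_iff.mp hev
      have hm : 0 < min δ' κ := by positivity
      refine ⟨c - min δ' κ / 2, ?_, by linarith, ?_⟩
      · have := min_le_right δ' κ
        linarith
      · refine (hb' ?_).le
        rw [Real.dist_eq, abs_sub_comm, abs_of_nonneg (by linarith)]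
        linarith [min_le_left δ' κ]
    have hgxpos : 0 < gg f x := hpos x (by linarith) hxc
    obtain ⟨x', hx'1, hx'2⟩ : gg f x ∈ gg f '' Icc 0 x2 := by
      apply intermediate_value_Icc hx2.le h.contg.continuousOn
      rw [h.gg_zero]
      exact ⟨hgxpos.le, hgx⟩
    have hx'pos : 0 < x' := by
      rcases eq_or_lt_of_le hx'1.1 with h0 | h0
      · rw [← h0, h.gg_zero] at hx'2; linarith
      · exact h0
    -- fibre property
    have hfib : ∀ n : ℕ, f^[n] x - f^[n] x' = (-1) ^ n * (x - x') := by
      intro n
      induction n with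
      | zero => simp
      | succ n ih =>
        have e1 : gg f (f^[n] x) = gg f (f^[n] x') := by
          rw [← hgf_iter, ← hgf_iter, hx'2]
        have e2 : f^[n] x + f (f^[n] x) = f^[n] x' + f (f^[n] x') := e1
        rw [Function.iterate_succ_apply', Function.iterate_succ_apply', pow_succ]
        linarith
    have hev : ∀ (n : ℕ) (z : ℝ), 0 < z → 0 < f^[2 * n] z := by
      intro n
      induction n with
      | zero => intro z hz; simpa using hz
      | succ n ih =>
        intro z hz
        rw [show 2 * (n + 1) = 2 * n + 1 + 1 by ring, Function.iterate_succ_apply',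
          Function.iterate_succ_apply']
        exact fpos _ (fneg _ (ih z hz))
    have hlow : ∀ n : ℕ, x1 < f^[2 * n] x := by
      intro n
      have h1 := hfib (2 * n)
      rw [pow_mul] at h1
      simp only [even_two, Even.neg_pow, one_pow, one_mul] at h1
      have h2 := hev n x' hx'pos
      linarith [hx'1.2]
    -- on `[x1, x]`, `f (f z) < z`
    have hdec : ∀ z, x1 ≤ z → z ≤ x → f (f z) < z := by
      intro z h1 h2
      have hz : 0 < z := by linarith
      have hg : 0 < gg f z := hpos z h1 (by linarith)
      have h3 := fneg _ hg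
      rw [h.comm] at h3
      have h4 : f z + f (f z) < 0 := h3
      have h5 : 0 < z + f z := hg
      linarith
    obtain ⟨m, hm, hmin⟩ := (isCompact_Icc (a := x1) (b := x)).exists_isMinOn
      ⟨x1, le_rfl, by linarith⟩
      ((continuous_id.sub (h.cont.comp h.cont)).continuousOn (s := Icc x1 x))
    have hm0 : 0 < m - f (f m) := by linarith [hdec m hm.1 hm.2]
    have hstep : ∀ n : ℕ, f^[2 * n] x ≤ x - n * (m - f (f m)) := by
      intro n
      induction n with
      | zero => simp
      | succ n ih =>
        rw [show 2 * (n + 1) = 2 * n + 1 + 1 by ring, Function.iterate_succ_apply',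
          Function.iterate_succ_apply']
        have hnn : (0 : ℝ) ≤ n * (m - f (f m)) := by positivity
        have hmem : f^[2 * n] x ∈ Icc x1 x := ⟨(hlow n).le, by linarith⟩
        have h1 : m - f (f m) ≤ f^[2 * n] x - f (f (f^[2 * n] x)) := hmin hmem
        push_cast
        linarith
    obtain ⟨n, hn⟩ := exists_nat_gt ((x - x1) / (m - f (f m)))
    rw [div_lt_iff₀ hm0] at hn
    linarith [hstep n, hlow n]
  intro x hx
  rcases lt_or_gt_of_ne hx with hneg' | hpos'
  · have h1 := fpos x hneg'
    have h2 := hD2 _ h1
    rw [← h.comm] at h2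
    have h3 : gg f x < 0 := by
      rcases lt_trichotomy (gg f x) 0 with h4 | h4 | h4
      · exact h4
      · rw [h4, h.zero] at h2; linarith
      · have := fneg _ h4; linarith
    exact mul_pos_of_neg_of_neg hneg' h3
  · exact mul_pos hpos' (hD2 x hpos')

/-- From a constant ratio to a linear formula on a half-line. -/
lemma two_slopes {F : ℝ → ℝ} (h0 : F 0 = 0)
    (hr : ∀ x y, 0 < x * y → |F x| / |x| ≤ |F y| / |y|) :
    ∃ a b : ℝ, 0 ≤ a ∧ 0 ≤ b ∧ (∀ x, 0 ≤ x → |F x| = a * x) ∧ (∀ x, x ≤ 0 → |F x| = b * (-x)) := by
  refine ⟨|F 1|, |F (-1)|, abs_nonneg _, abs_nonneg _, ?_, ?_⟩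
  · intro x hx
    rcases eq_or_lt_of_le hx with hx0 | hx0
    · rw [← hx0, h0]; simp
    have e1 := hr x 1 (by simpa using hx0)
    have e2 := hr 1 x (by simpa using hx0)
    have e3 := le_antisymm e1 e2
    rw [abs_one, div_one, abs_of_pos hx0] at e3
    rw [div_eq_iff hx0.ne'] at e3
    exact e3
  · intro x hx
    rcases eq_or_lt_of_le hx with hx0 | hx0
    · rw [hx0, h0]; simp
    have e1 := hr x (-1) (by linarith)
    have e2 := hr (-1) x (by linarith)
    have e3 := le_antisymm e1 e2
    rw [abs_neg, abs_one, div_one, abs_of_neg hx0] at e3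
    rw [div_eq_iff (by linarith)] at e3
    exact e3

/-- The classification. -/
theorem classify (h : Sol f) : (∃ a : ℝ, ∀ x, f x = a * x) ∨
    ∃ α β : ℝ, 0 ≤ α ∧ 0 ≤ β ∧ (∀ x, 0 ≤ x → f x = α * x) ∧ (∀ x, x ≤ 0 → f x = β * x) := by
  rcases h.trichotomy with hout | hin
  · -- outward case
    right
    have fnn : ∀ x, 0 ≤ x → 0 ≤ f x := by
      intro x hx
      rcases eq_or_lt_of_le hx with hx0 | hx0
      · rw [← hx0, h.zero]
      · by_contra hlt
        push Not at hlt
        have := hout x
        nlinarith
    have fnp : ∀ x, x ≤ 0 → f x ≤ 0 := by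
      intro x hx
      rcases eq_or_lt_of_le hx with hx0 | hx0
      · rw [hx0, h.zero]
      · by_contra hlt
        push Not at hlt
        have := hout x
        nlinarith
    have hpair : Pair f (gg f) := by
      refine ⟨h.cont, h.contg, h.comm, ?_, ?_, ?_, ?_⟩
      · intro x
        rcases le_total 0 x with hx | hx
        · have := fnn x hx
          show |x + f x| = _
          rw [abs_of_nonneg (by linarith), abs_of_nonneg hx, abs_of_nonneg this]
        · have := fnp x hx
          show |x + f x| = _
          rw [abs_of_nonpos (by linarith), abs_of_nonpos hx, abs_of_nonpos this]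
          ring
      · intro y
        have hc := h.contg
        rcases le_total 0 y with hy | hy
        · have : y ∈ gg f '' Icc 0 y := by
            apply intermediate_value_Icc hy hc.continuousOn
            rw [h.gg_zero]
            refine ⟨hy, ?_⟩
            show y ≤ y + f y
            linarith [fnn y hy]
          obtain ⟨z, -, hz⟩ := this
          exact ⟨z, hz⟩
        · have : y ∈ gg f '' Icc y 0 := by
            apply intermediate_value_Icc hy hc.continuousOn
            rw [h.gg_zero]
            refine ⟨?_, hy⟩
            show y + f y ≤ y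
            linarith [fnp y hy]
          obtain ⟨z, -, hz⟩ := this
          exact ⟨z, hz⟩
      · intro x
        show 0 ≤ f x * (x + f x)
        nlinarith [hout x, sq_nonneg (f x)]
      · intro x
        rcases le_total 0 x with hx | hx
        · have h1 : 0 ≤ gg f x := by show 0 ≤ x + f x; linarith [fnn x hx]
          have h2 : 0 ≤ gg f (gg f x) := by
            show 0 ≤ gg f x + f (gg f x); linarith [fnn _ h1]
          exact mul_nonneg hx h2
        · have h1 : gg f x ≤ 0 := by show x + f x ≤ 0; linarith [fnp x hx]
          have h2 : gg f (gg f x) ≤ 0 := by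
            show gg f x + f (gg f x) ≤ 0; linarith [fnp _ h1]
          exact mul_nonneg_of_nonpos_of_nonpos hx h2
    obtain ⟨a, b, ha, hb, h1, h2⟩ := two_slopes h.zero
      (fun x y hxy => hpair.ratio_le_of_same_ray hxy)
    refine ⟨a, b, ha, hb, fun x hx => ?_, fun x hx => ?_⟩
    · rw [← h1 x hx, abs_of_nonneg (fnn x hx)]
    · have := h2 x hx
      rw [abs_of_nonpos (fnp x hx)] at this
      linarith
  · -- inward case
    left
    have fneg : ∀ x, 0 < x → f x < 0 := fun x hx => by
      have := hin x hx.ne'
      nlinarith
    have fpos : ∀ x, x < 0 → 0 < f x := fun x hx => by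
      have := hin x hx.ne
      nlinarith
    rcases h.inward_dichotomy hin with hg | hg
    · have hcp : CPair f (gg f) := by
        refine ⟨h.cont, h.contg, h.comm, ?_, hin, hg⟩
        intro x
        rcases lt_trichotomy x 0 with hx | hx | hx
        · have h1 := fpos x hx
          have h2 := hg x hx.ne
          have h3 : gg f x < 0 := by nlinarith
          rw [abs_of_neg hx, abs_of_pos h1, abs_of_neg h3]
          show -x = f x + -(x + f x)
          ring
        · rw [hx, h.gg_zero, h.zero]; simp
        · have h1 := fneg x hx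
          have h2 := hg x hx.ne'
          have h3 : 0 < gg f x := by nlinarith
          rw [abs_of_pos hx, abs_of_neg h1, abs_of_pos h3]
          show x = -f x + (x + f x)
          ring
      refine ⟨-|f 1|, fun x => ?_⟩
      by_cases hx : x = 0
      · rw [hx, h.zero]; simp
      have e := le_antisymm (hcp.ratio_le hx one_ne_zero) (hcp.ratio_le one_ne_zero hx)
      rw [abs_one, div_one, div_eq_iff (abs_pos.mpr hx).ne'] at e
      rcases lt_or_gt_of_ne hx with hx0 | hx0
      · rw [abs_of_pos (fpos x hx0), abs_of_neg hx0] at e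
        linarith
      · rw [abs_of_neg (fneg x hx0), abs_of_pos hx0] at e
        linarith
    · have gnp : ∀ x, 0 ≤ x → gg f x ≤ 0 := by
        intro x hx
        rcases eq_or_lt_of_le hx with hx0 | hx0
        · rw [← hx0, h.gg_zero]
        · by_contra hlt
          push Not at hlt
          have := hg x
          nlinarith
      have gnn : ∀ x, x ≤ 0 → 0 ≤ gg f x := by
        intro x hx
        rcases eq_or_lt_of_le hx with hx0 | hx0
        · rw [hx0, h.gg_zero]
        · by_contra hlt
          push Not at hlt
          have := hg x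
          nlinarith
      have fnp : ∀ x, 0 ≤ x → f x ≤ 0 := by
        intro x hx
        rcases eq_or_lt_of_le hx with hx0 | hx0
        · rw [← hx0, h.zero]
        · exact (fneg x hx0).le
      have fnn : ∀ x, x ≤ 0 → 0 ≤ f x := by
        intro x hx
        rcases eq_or_lt_of_le hx with hx0 | hx0
        · rw [hx0, h.zero]
        · exact (fpos x hx0).le
      have hpair : Pair (gg f) f := by
        refine ⟨h.contg, h.cont, fun x => (h.comm x).symm, ?_, ?_, ?_, ?_⟩
        · intro x
          rcases le_total 0 x with hx | hx
          · rw [abs_of_nonpos (fnp x hx), abs_of_nonneg hx, abs_of_nonpos (gnp x hx)]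
            show -f x = x + -(x + f x)
            ring
          · rw [abs_of_nonneg (fnn x hx), abs_of_nonpos hx, abs_of_nonneg (gnn x hx)]
            show f x = -x + (x + f x)
            ring
        · intro y
          rcases le_total 0 y with hy | hy
          · have : y ∈ f '' Icc (-y) 0 := by
              apply intermediate_value_Icc' (by linarith) h.cont.continuousOn
              rw [h.zero]
              refine ⟨hy, ?_⟩
              have : 0 ≤ -y + f (-y) := gnn (-y) (by linarith)
              linarith
            obtain ⟨z, -, hz⟩ := this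
            exact ⟨z, hz⟩
          · have : y ∈ f '' Icc 0 (-y) := by
              apply intermediate_value_Icc' (by linarith) h.cont.continuousOn
              rw [h.zero]
              refine ⟨?_, hy⟩
              have : -y + f (-y) ≤ 0 := gnp (-y) (by linarith)
              linarith
            obtain ⟨z, -, hz⟩ := this
            exact ⟨z, hz⟩
        · intro x
          rcases le_total 0 x with hx | hx
          · exact mul_nonneg_of_nonpos_of_nonpos (gnp x hx) (fnp x hx)
          · exact mul_nonneg (gnn x hx) (fnn x hx)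
        · intro x
          rcases le_total 0 x with hx | hx
          · exact mul_nonneg hx (fnn _ (fnp x hx))
          · exact mul_nonneg_of_nonpos_of_nonpos hx (fnp _ (fnn x hx))
      obtain ⟨a, b, ha, hb, h1, h2⟩ := two_slopes h.gg_zero
        (fun x y hxy => hpair.ratio_le_of_same_ray hxy)
      have e1 : ∀ x, 0 ≤ x → f x = -(1 + a) * x := by
        intro x hx
        have := h1 x hx
        rw [abs_of_nonpos (gnp x hx)] at this
        have e : gg f x = x + f x := rfl
        rw [e] at this
        linarith
      have e2 : ∀ x, x ≤ 0 → f x = -(1 + b) * x := by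
        intro x hx
        have := h2 x hx
        rw [abs_of_nonneg (gnn x hx)] at this
        have e : gg f x = x + f x := rfl
        rw [e] at this
        linarith
      have hab : a = b := by
        have h3 := h.eq 1
        rw [e1 1 (by norm_num)] at h3
        have h4 : (1 : ℝ) + -(1 + a) * 1 = -a := by ring
        rw [h4, e2 (-a) (by linarith), e2 (-(1 + a) * 1) (by linarith)] at h3
        linarith
      refine ⟨-(1 + a), fun x => ?_⟩
      rcases le_total 0 x with hx | hx
      · exact e1 x hx
      · rw [e2 x hx, hab]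

end Sol

end Pool.Agent.R739.FunEq
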